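import Pool.Agent.Lib_helper25.PV.Defs

/-! Project PV (MP_b08f5f_an), block B1a, first half: the set of configurations without collision is
open, the velocity field is smooth on it, and the centre, the moment of inertia and the energy do not
change along a motion. -/

set_option autoImplicit false

namespace Pool.Agent.Lib_helper25.PV

open MeasureTheory Filter Topology Set
open scoped ComplexConjugate

noncomputable section

theorem isOpen_NC (N : ℕ) : IsOpen (NC N) := by
  have h : NC N = ⋂ i, ⋂ j, ⋂ (_ : i ≠ j), {z : Conf N | z i ≠ z j} := by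
    ext z
    simp only [NC, mem_ofPred_eq, mem_iInter, Function.Injective]
    constructor
    · intro h i j hij h'
      exact hij (h h')
    · intro h i j h'
      by_contra hij
      exact h i j hij h'
  rw [h]
  refine isOpen_iInter_of_finite fun i => isOpen_iInter_of_finite fun j =>
    isOpen_iInter_of_finite fun _ => ?_
  exact isOpen_ne_fun (continuous_apply i) (continuous_apply j)

theorem vel_contDiffOn (N : ℕ) : ContDiffOn ℝ 2 (vel (N := N)) (NC N) := by
  rw [contDiffOn_pi]
  intro i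
  unfold vel
  refine contDiffOn_const.mul ?_
  refine ContDiffOn.sum fun j hj => ?_
  have hji : j ≠ i := (Finset.mem_erase.mp hj).1
  have h1 : ContDiffOn ℝ 2 (fun z : Conf N => conj (z i - z j)) (NC N) := by
    have h2 : ContDiff ℝ 2 (fun z : Conf N => z i - z j) :=
      (contDiff_apply ℝ ℂ i).sub (contDiff_apply ℝ ℂ j)
    exact (Complex.conjCLE.contDiff.comp h2).contDiffOn
  have h3 := h1.inv (fun z hz => by
    have : z i - z j ≠ 0 := sub_ne_zero.mpr fun h => hji (hz h).symm
    exact (map_ne_zero (starRingEnd ℂ)).mpr this)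
  simp only [one_div]
  exact h3

theorem B1a_antisymm {N : ℕ} (a : Fin N → Fin N → ℂ) (ha : ∀ i j, a i j = -a j i) :
    ∑ i, ∑ j ∈ Finset.univ.erase i, a i j = 0 := by
  have h0 : ∀ i, a i i = 0 := fun i => by
    have := ha i i
    exact self_eq_neg.mp this
  have h1 : ∑ i, ∑ j ∈ Finset.univ.erase i, a i j = ∑ i, ∑ j, a i j := by
    refine Finset.sum_congr rfl fun i _ => ?_
    rw [← Finset.add_sum_erase Finset.univ (fun j => a i j) (Finset.mem_univ i), h0, zero_add]
  have h2 : ∑ i, ∑ j, a i j = -∑ i, ∑ j, a i j := by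
    conv_lhs => rw [Finset.sum_comm]
    rw [← Finset.sum_neg_distrib]
    refine Finset.sum_congr rfl fun i _ => ?_
    rw [← Finset.sum_neg_distrib]
    exact Finset.sum_congr rfl fun j _ => ha j i
  rw [h1]
  exact self_eq_neg.mp h2

theorem B1a_sum_vel {N : ℕ} (z : Conf N) : ∑ i, vel z i = 0 := by
  unfold vel
  rw [← Finset.mul_sum, B1a_antisymm, mul_zero]
  intro i j
  rw [← neg_sub (z j) (z i), map_neg, one_div, one_div, inv_neg]

theorem B1a_centre {N : ℕ} {γ : ℝ → Conf N} {t : ℝ} (h : HasDerivAt γ (vel (γ t)) t) :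
    HasDerivAt (fun s => centre (γ s)) 0 t := by
  have h1 : ∀ i, HasDerivAt (fun s => γ s i) (vel (γ t) i) t := hasDerivAt_pi.mp h
  have h2 : HasDerivAt (fun s => (∑ i, γ s i) / (N : ℂ)) ((∑ i, vel (γ t) i) / (N : ℂ)) t :=
    (HasDerivAt.fun_sum fun i _ => h1 i).div_const _
  rw [B1a_sum_vel, zero_div] at h2
  exact h2

theorem B1a_inertia {N : ℕ} {γ : ℝ → Conf N} {t : ℝ} (h : HasDerivAt γ (vel (γ t)) t) :
    HasDerivAt (fun s => inertia (γ s)) 0 t := by
  have h1 : ∀ i, HasDerivAt (fun s => γ s i) (vel (γ t) i) t := hasDerivAt_pi.mp h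
  have h2 : HasDerivAt (fun s => ∑ i, ‖γ s i‖ ^ 2)
      (∑ i, 2 * inner ℝ (γ t i) (vel (γ t) i)) t :=
    HasDerivAt.fun_sum fun i _ => (h1 i).norm_sq
  have h3 : ∑ i, 2 * inner ℝ (γ t i) (vel (γ t) i) = 0 := by
    set z := γ t
    have e1 : ∀ i, 2 * inner ℝ (z i) (vel z i) =
        ((-(Complex.I / (2 * Real.pi))) * ∑ j ∈ Finset.univ.erase i,
          (2 * conj (z i) / conj (z i - z j))).re := by
      intro i
      rw [Complex.inner, vel]
      have : (-(Complex.I / (2 * Real.pi))) * ∑ j ∈ Finset.univ.erase i,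
          (2 * conj (z i) / conj (z i - z j)) =
          ((2 : ℝ) : ℂ) * ((-(Complex.I / (2 * Real.pi)) * ∑ j ∈ Finset.univ.erase i,
            1 / conj (z i - z j)) * conj (z i)) := by
        push_cast
        rw [Finset.mul_sum, Finset.mul_sum, Finset.sum_mul, Finset.mul_sum]
        refine Finset.sum_congr rfl fun j _ => ?_
        ring
      rw [this, Complex.re_ofReal_mul]
    have e2 : ∑ i, ∑ j ∈ Finset.univ.erase i, (2 * conj (z i) / conj (z i - z j)) =
        ∑ i, ∑ j ∈ Finset.univ.erase i, (conj (z i - z j) / conj (z i - z j)) := by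
      rw [← sub_eq_zero, ← Finset.sum_sub_distrib]
      have : ∀ i, ∑ j ∈ Finset.univ.erase i, 2 * conj (z i) / conj (z i - z j) -
          ∑ j ∈ Finset.univ.erase i, conj (z i - z j) / conj (z i - z j) =
          ∑ j ∈ Finset.univ.erase i, (conj (z i) + conj (z j)) / conj (z i - z j) := by
        intro i
        rw [← Finset.sum_sub_distrib]
        refine Finset.sum_congr rfl fun j _ => ?_
        rw [map_sub]
        ring
      rw [Finset.sum_congr rfl fun i _ => this i]
      apply B1a_antisymm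
      intro i j
      rw [← neg_sub (z j) (z i), map_neg, div_neg, add_comm (conj (z i))]
    have e3 : (∑ i, ∑ j ∈ Finset.univ.erase i,
        (conj (z i - z j) / conj (z i - z j))).im = 0 := by
      rw [Complex.im_sum]
      refine Finset.sum_eq_zero fun i _ => ?_
      rw [Complex.im_sum]
      refine Finset.sum_eq_zero fun j _ => ?_
      rcases eq_or_ne (conj (z i - z j)) 0 with h | h
      · rw [h]; simp
      · rw [div_self h]; simp
    rw [Finset.sum_congr rfl fun i _ => e1 i, ← Complex.re_sum, ← Finset.mul_sum, e2]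
    have e4 : (-(Complex.I / (2 * Real.pi)) : ℂ) = ((-(1 / (2 * Real.pi)) : ℝ) : ℂ) * Complex.I := by
      push_cast
      ring
    rw [e4, mul_assoc, Complex.re_ofReal_mul, Complex.I_mul_re, e3]
    simp
  rw [h3] at h2
  exact h2

theorem B1a_log {w : ℝ → ℂ} {w' : ℂ} {t : ℝ} (h : HasDerivAt w w' t) (h0 : w t ≠ 0) :
    HasDerivAt (fun s => Real.log ‖w s‖) (w' / w t).re t := by
  have h1 : HasDerivAt (fun s => ‖w s‖ ^ 2) (2 * inner ℝ (w t) w') t := h.norm_sq
  have h2 : ‖w t‖ ^ 2 ≠ 0 := pow_ne_zero 2 (norm_ne_zero_iff.mpr h0)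
  have h3 := (h1.log h2).const_mul (1 / 2 : ℝ)
  have e1 : (fun s => (1 / 2 : ℝ) * Real.log (‖w s‖ ^ 2)) = fun s => Real.log ‖w s‖ := by
    funext s
    rw [Real.log_pow]
    push_cast
    ring
  have e2 : (1 / 2 : ℝ) * (2 * inner ℝ (w t) w' / ‖w t‖ ^ 2) = (w' / w t).re := by
    have e3 : w' / w t = ((1 / ‖w t‖ ^ 2 : ℝ) : ℂ) * (conj (w t) * w') := by
      have e4 : ((‖w t‖ ^ 2 : ℝ) : ℂ) = conj (w t) * w t := by
        rw [mul_comm, Complex.mul_conj, Complex.normSq_eq_norm_sq]
      rw [Complex.ofReal_div, e4, Complex.ofReal_one]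
      have : conj (w t) ≠ 0 := by simpa using h0
      field_simp
    rw [e3, Complex.re_ofReal_mul, Complex.inner]
    ring_nf
  rw [e1, e2] at h3
  exact h3

theorem B1a_energy {N : ℕ} {γ : ℝ → Conf N} {t : ℝ} (h : HasDerivAt γ (vel (γ t)) t)
    (hi : Function.Injective (γ t)) :
    HasDerivAt (fun s => ∑ i, ∑ j ∈ Finset.univ.erase i, Real.log ‖γ s i - γ s j‖) 0 t := by
  have h1 : ∀ i, HasDerivAt (fun s => γ s i) (vel (γ t) i) t := hasDerivAt_pi.mp h
  have h2 : HasDerivAt (fun s => ∑ i, ∑ j ∈ Finset.univ.erase i, Real.log ‖γ s i - γ s j‖)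
      (∑ i, ∑ j ∈ Finset.univ.erase i,
        ((vel (γ t) i - vel (γ t) j) / (γ t i - γ t j)).re) t := by
    refine HasDerivAt.fun_sum fun i _ => HasDerivAt.fun_sum fun j hj => ?_
    have hji : j ≠ i := (Finset.mem_erase.mp hj).1
    exact B1a_log ((h1 i).sub (h1 j)) (sub_ne_zero.mpr fun e => hji (hi e).symm)
  have h3 : ∑ i, ∑ j ∈ Finset.univ.erase i,
      ((vel (γ t) i - vel (γ t) j) / (γ t i - γ t j)).re = 0 := by
    set z := γ t
    have e1 : ∑ i, ∑ j ∈ Finset.univ.erase i, ((vel z i - vel z j) / (z i - z j)) =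
        ∑ i, ∑ j ∈ Finset.univ.erase i, (2 * vel z i / (z i - z j)) := by
      rw [← sub_eq_zero, ← Finset.sum_sub_distrib]
      have : ∀ i, ∑ j ∈ Finset.univ.erase i, (vel z i - vel z j) / (z i - z j) -
          ∑ j ∈ Finset.univ.erase i, 2 * vel z i / (z i - z j) =
          ∑ j ∈ Finset.univ.erase i, -((vel z i + vel z j) / (z i - z j)) := by
        intro i
        rw [← Finset.sum_sub_distrib]
        refine Finset.sum_congr rfl fun j _ => ?_
        ring
      rw [Finset.sum_congr rfl fun i _ => this i]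
      apply B1a_antisymm
      intro i j
      rw [← neg_sub (z j) (z i), div_neg, add_comm (vel z i)]
    have e2 : ∀ i, (∑ j ∈ Finset.univ.erase i, (2 * vel z i / (z i - z j))).re = 0 := by
      intro i
      set S : ℂ := ∑ j ∈ Finset.univ.erase i, 1 / (z i - z j) with hS
      have e3 : vel z i = -(Complex.I / (2 * Real.pi)) * conj S := by
        rw [vel, hS, map_sum]
        congr 1
        refine Finset.sum_congr rfl fun j _ => ?_
        rw [map_div₀, map_one]
      have e4 : ∑ j ∈ Finset.univ.erase i, (2 * vel z i / (z i - z j)) =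
          ((-(1 / Real.pi) * ‖S‖ ^ 2 : ℝ) : ℂ) * Complex.I := by
        have e5 : ∑ j ∈ Finset.univ.erase i, (2 * vel z i / (z i - z j)) = 2 * vel z i * S := by
          rw [hS, Finset.mul_sum]
          refine Finset.sum_congr rfl fun j _ => ?_
          ring
        have e6 : ((‖S‖ ^ 2 : ℝ) : ℂ) = conj S * S := by
          rw [mul_comm, Complex.mul_conj, Complex.normSq_eq_norm_sq]
        rw [e5, e3, Complex.ofReal_mul, e6]
        push_cast
        have : (Real.pi : ℂ) ≠ 0 := by exact_mod_cast Real.pi_ne_zero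
        field_simp
      rw [e4, Complex.re_ofReal_mul, Complex.I_re, mul_zero]
    have e7 : ∑ i, ∑ j ∈ Finset.univ.erase i, ((vel z i - vel z j) / (z i - z j)).re =
        (∑ i, ∑ j ∈ Finset.univ.erase i, ((vel z i - vel z j) / (z i - z j))).re := by
      rw [Complex.re_sum]
      refine Finset.sum_congr rfl fun i _ => ?_
      rw [Complex.re_sum]
    rw [e7, e1, Complex.re_sum]
    exact Finset.sum_eq_zero fun i _ => e2 i
  rw [h3] at h2
  exact h2

end

end Pool.Agent.Lib_helper25.PV
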