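import Pool.Agent.Lib_helper71.EQM.Odes

/-! Project PV (MP_b08f5f_an), block B2, second half: Liouville's theorem for a global flow of a field
without trace: the flow preserves the volume. -/

set_option autoImplicit false

namespace Pool.Agent.Lib_helper25.PV

open MeasureTheory Filter Topology Set
open Pool.Agent.EQ.OD (GlobalFlow)

noncomputable section

/-- the derivative of the determinant at the identity is the trace -/
theorem B2_det_matrix {n : Type*} [Fintype n] [DecidableEq n] {M : ℝ → Matrix n n ℝ}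
    {A : Matrix n n ℝ} (hM : ∀ i j, HasDerivAt (fun s => M s i j) (A i j) 0) (h0 : M 0 = 1) :
    HasDerivAt (fun s => (M s).det) A.trace 0 := by
  set P : (n → n → ℝ) → ℝ := fun m => (Matrix.of m).det with hP
  have hPd : Differentiable ℝ P := by
    have : P = fun m => ∑ σ : Equiv.Perm n, ((Equiv.Perm.sign σ : ℤ) : ℝ) * ∏ i, m (σ i) i := by
      funext m
      rw [hP]
      simp only [Matrix.det_apply', Matrix.of_apply]
    rw [this]
    fun_prop
  have h1 : HasDerivAt (fun s => (fun i j => M s i j : n → n → ℝ)) (fun i j => A i j) 0 :=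
    hasDerivAt_pi.mpr fun i => hasDerivAt_pi.mpr fun j => hM i j
  have h2 : HasDerivAt (fun s : ℝ => (fun i j => (1 + s • A) i j : n → n → ℝ)) (fun i j => A i j)
      0 := by
    refine hasDerivAt_pi.mpr fun i => hasDerivAt_pi.mpr fun j => ?_
    have := ((hasDerivAt_id (0 : ℝ)).mul_const (A i j)).const_add ((1 : Matrix n n ℝ) i j)
    simpa [Matrix.add_apply, Matrix.smul_apply] using this
  have e0 : (fun i j => M 0 i j : n → n → ℝ) = fun i j => (1 : Matrix n n ℝ) i j := by
    rw [h0]
  have e1 : (fun i j => (1 + (0 : ℝ) • A) i j : n → n → ℝ) = fun i j => (1 : Matrix n n ℝ) i j := by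
    rw [zero_smul, add_zero]
  have h3 : HasDerivAt (fun s => P (fun i j => M s i j))
      (fderiv ℝ P (fun i j => (1 : Matrix n n ℝ) i j) (fun i j => A i j)) 0 := by
    have := (hPd (fun i j => M 0 i j)).hasFDerivAt.comp_hasDerivAt (0 : ℝ) h1
    rw [e0] at this
    exact this
  have h4 : HasDerivAt (fun s : ℝ => P (fun i j => (1 + s • A) i j))
      (fderiv ℝ P (fun i j => (1 : Matrix n n ℝ) i j) (fun i j => A i j)) 0 := by
    have := (hPd (fun i j => (1 + (0 : ℝ) • A) i j)).hasFDerivAt.comp_hasDerivAt (0 : ℝ) h2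
    rw [e1] at this
    exact this
  have h5 : HasDerivAt (fun s : ℝ => P (fun i j => (1 + s • A) i j)) A.trace 0 := by
    have e2 : (fun s : ℝ => P (fun i j => (1 + s • A) i j)) = fun s => 1 + A.trace * s +
        (Matrix.det (1 + (Polynomial.X : Polynomial ℝ) • A.map Polynomial.C)).divX.divX.eval s *
          s ^ 2 := by
      funext s
      exact Matrix.det_one_add_smul s A
    rw [e2]
    have h6 := (((hasDerivAt_id (0 : ℝ)).const_mul A.trace).const_add 1).fun_add
      ((Polynomial.hasDerivAt (Matrix.det (1 + (Polynomial.X : Polynomial ℝ) •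
        A.map Polynomial.C)).divX.divX (0 : ℝ)).fun_mul (hasDerivAt_pow 2 (0 : ℝ)))
    refine h6.congr_deriv ?_
    simp
  rw [h4.unique h5] at h3
  exact h3

variable {E : Type*} [NormedAddCommGroup E] [NormedSpace ℝ E]

/-- the derivative of the determinant at the identity is the trace -/
theorem B2_det_map [FiniteDimensional ℝ E] {L : ℝ → E →L[ℝ] E} {A : E →L[ℝ] E}
    (hL : ∀ h, HasDerivAt (fun s => L s h) (A h) 0) (h0 : L 0 = ContinuousLinearMap.id ℝ E) :
    HasDerivAt (fun s => (L s).det) (LinearMap.trace ℝ E (A : E →ₗ[ℝ] E)) 0 := by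
  set b := Module.finBasis ℝ E with hb
  have e1 : (fun s => (L s).det) =
      fun s => (LinearMap.toMatrix b b (L s : E →ₗ[ℝ] E)).det := by
    funext s
    rw [LinearMap.det_toMatrix]
  rw [e1, LinearMap.trace_eq_matrix_trace ℝ b]
  refine B2_det_matrix (fun i j => ?_) ?_
  · simp only [LinearMap.toMatrix_apply]
    exact (LinearMap.toContinuousLinearMap (b.coord i)).hasFDerivAt.comp_hasDerivAt (0 : ℝ)
      (hL (b j))
  · rw [h0]
    exact LinearMap.toMatrix_id b

variable {F : E → E} {U : Set E}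

theorem B2_diff (hU : IsOpen U) (G : GlobalFlow F U) (t : ℝ) {x : E} (hx : x ∈ U) :
    DifferentiableAt ℝ (G.φ t) x := by
  have h1 : ContDiffAt ℝ 1 (fun p : ℝ × E => G.φ p.1 p.2) (t, x) :=
    (G.smooth (t, x) ⟨mem_univ _, hx⟩).contDiffAt ((isOpen_univ.prod hU).mem_nhds ⟨mem_univ _, hx⟩)
  have h2 : DifferentiableAt ℝ (fun y : E => (t, y)) x :=
    (differentiableAt_const t).prodMk differentiableAt_id
  exact (h1.differentiableAt (by norm_num)).comp x h2

theorem B2_fderiv_zero (G : GlobalFlow F U) (x : E) :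
    fderiv ℝ (G.φ 0) x = ContinuousLinearMap.id ℝ E := by
  have : G.φ 0 = id := funext G.zero
  rw [this, fderiv_id]

theorem B2_cocycle (hU : IsOpen U) (G : GlobalFlow F U) (s t : ℝ) {x : E} (hx : x ∈ U) :
    (fderiv ℝ (G.φ (s + t)) x).det =
      (fderiv ℝ (G.φ s) (G.φ t x)).det * (fderiv ℝ (G.φ t) x).det := by
  have h1 : G.φ (s + t) = G.φ s ∘ G.φ t := funext fun y => G.add s t y
  rw [h1, fderiv_comp x (B2_diff hU G s (G.mem t x hx)) (B2_diff hU G t hx)]
  exact LinearMap.det_comp _ _

/-- Liouville's theorem: the determinant of the derivative of the flow of a field without trace is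
one. -/
theorem B2_det [FiniteDimensional ℝ E] (hU : IsOpen U) (G : GlobalFlow F U)
    (htr : ∀ x ∈ U, LinearMap.trace ℝ E (fderiv ℝ F x : E →ₗ[ℝ] E) = 0) (t : ℝ) {x : E}
    (hx : x ∈ U) : (fderiv ℝ (G.φ t) x).det = 1 := by
  have h0 : ∀ y ∈ U, HasDerivAt (fun s => (fderiv ℝ (G.φ s) y).det) 0 0 := by
    intro y hy
    have h1 := B2_det_map (L := fun s => fderiv ℝ (G.φ s) y) (A := fderiv ℝ F y) (fun h => by
      have := G.var y hy h 0
      rw [G.zero, B2_fderiv_zero] at this
      exact this) (B2_fderiv_zero G y)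
    rw [htr y hy] at h1
    exact h1
  have h1 : ∀ t, HasDerivAt (fun s => (fderiv ℝ (G.φ s) x).det) 0 t := by
    intro t
    have h2 := (h0 (G.φ t x) (G.mem t x hx)).mul_const (fderiv ℝ (G.φ t) x).det
    rw [zero_mul] at h2
    have h3 : HasDerivAt (fun s => (fderiv ℝ (G.φ (s + t)) x).det) 0 0 := by
      have : (fun s => (fderiv ℝ (G.φ (s + t)) x).det) = fun s =>
          (fderiv ℝ (G.φ s) (G.φ t x)).det * (fderiv ℝ (G.φ t) x).det :=
        funext fun s => B2_cocycle hU G s t hx
      rw [this]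
      exact h2
    have h5 : HasDerivAt (fun s => (fderiv ℝ (G.φ (s + t)) x).det) 0 (t - t) := by
      rw [sub_self]
      exact h3
    have h6 := HasDerivAt.comp_sub_const t t h5
    simp only [sub_add_cancel] at h6
    exact h6
  have h2 := is_const_of_deriv_eq_zero (fun s => (h1 s).differentiableAt)
    (fun s => (h1 s).deriv) t 0
  rw [h2, B2_fderiv_zero]
  exact LinearMap.det_id

variable [MeasurableSpace E] [BorelSpace E]

theorem B2_measurable (hU : IsOpen U) (G : GlobalFlow F U) (t : ℝ) : Measurable (G.φ t) := by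
  classical
  have h1 : G.φ t = U.piecewise (G.φ t) id := by
    funext x
    by_cases hx : x ∈ U
    · rw [piecewise_eq_of_mem _ _ _ hx]
    · rw [piecewise_eq_of_notMem _ _ _ hx]
      exact G.out t x hx
  rw [h1]
  exact ContinuousOn.measurable_piecewise
    (fun x hx => (B2_diff hU G t hx).continuousAt.continuousWithinAt) continuousOn_id
    hU.measurableSet

/-- the flow of a field without trace preserves the volume -/
theorem B2_mp [FiniteDimensional ℝ E] (μ : Measure E) [μ.IsAddHaarMeasure] (hU : IsOpen U) (G : GlobalFlow F U)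
    (htr : ∀ x ∈ U, LinearMap.trace ℝ E (fderiv ℝ F x : E →ₗ[ℝ] E) = 0) (t : ℝ) :
    MeasurePreserving (G.φ t) μ μ := by
  have hinv : ∀ s x, G.φ (-s) (G.φ s x) = x := fun s x => by
    rw [← G.add, neg_add_cancel, G.zero]
  have hinv' : ∀ s x, G.φ s (G.φ (-s) x) = x := fun s x => by
    rw [← G.add, add_neg_cancel, G.zero]
  refine ⟨B2_measurable hU G t, Measure.ext fun s hs => ?_⟩
  rw [Measure.map_apply (B2_measurable hU G t) hs]
  have e1 : G.φ t ⁻¹' s ∩ U = G.φ (-t) '' (s ∩ U) := by
    ext x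
    constructor
    · rintro ⟨h1, h2⟩
      exact ⟨G.φ t x, ⟨h1, G.mem t x h2⟩, hinv t x⟩
    · rintro ⟨y, ⟨h1, h2⟩, rfl⟩
      refine ⟨?_, G.mem _ _ h2⟩
      rw [mem_preimage, hinv']
      exact h1
  have e2 : G.φ t ⁻¹' s \ U = s \ U := by
    ext x
    constructor
    · rintro ⟨h1, h2⟩
      refine ⟨?_, h2⟩
      rw [mem_preimage, G.out t x h2] at h1
      exact h1
    · rintro ⟨h1, h2⟩
      refine ⟨?_, h2⟩
      rw [mem_preimage, G.out t x h2]
      exact h1
  have h1 : μ (G.φ (-t) '' (s ∩ U)) = μ (s ∩ U) := by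
    rw [← lintegral_abs_det_fderiv_eq_addHaar_image μ (hs.inter hU.measurableSet)
      (f' := fun x => fderiv ℝ (G.φ (-t)) x)
      (fun x hx => (B2_diff hU G (-t) hx.2).hasFDerivAt.hasFDerivWithinAt)
      (fun x _ y _ hxy => by rw [← hinv' t x, ← hinv' t y, hxy])]
    rw [setLIntegral_congr_fun (g := fun _ => 1) (hs.inter hU.measurableSet)
      (fun x hx => by simp only [B2_det hU G htr (-t) hx.2, abs_one, ENNReal.ofReal_one])]
    rw [setLIntegral_one]
  rw [← measure_inter_add_sdiff (G.φ t ⁻¹' s) hU.measurableSet, e1, e2, h1,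
    measure_inter_add_sdiff s hU.measurableSet]

end

end Pool.Agent.Lib_helper25.PV
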