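import Pool.Agent.Lib_helper68.PV.B2trace
import Pool.Agent.Lib_helper68.PV.B2det

/-! Project PV (MP_b08f5f_an), block B2: the vortex flow preserves the volume. -/

set_option autoImplicit false

namespace Pool.Agent.Lib_helper25.PV

open MeasureTheory Filter Topology Set

theorem global_mp (N : ℕ) (hU : IsOpen (NC N)) (_hF : ContDiffOn ℝ 2 (vel (N := N)) (NC N))
    (G : Pool.Agent.EQ.OD.GlobalFlow (vel (N := N)) (NC N)) (t : ℝ) :
    MeasurePreserving (G.φ t) volume volume :=
  B2_mp volume hU G (fun _ hx => B2_trace hx) t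

end Pool.Agent.Lib_helper25.PV
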