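import Pool.Agent.Lib_helper52.PV.B1a

/-! Project PV (MP_b08f5f_an), block B10D: the monomials are Lipschitz along every orbit. -/

set_option autoImplicit false

namespace Pool.Agent.Lib_helper25.PV

open MeasureTheory Filter Topology Set Pool.Agent.EQ.OD
open scoped ComplexConjugate

noncomputable section

theorem B10D_mono_contDiff {ι : Type*} [Fintype ι] (a b : ι → ℕ) :
    ContDiff ℝ 1 (fun w : ι → ℂ => mono a b w) := by
  have h : (fun w : ι → ℂ => mono a b w) = fun w => ∏ i, (w i ^ a i * (Complex.conjCLE (w i)) ^ b i) := by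
    funext w
    rfl
  rw [h]
  refine contDiff_prod fun i _ => ?_
  exact ((contDiff_apply ℝ ℂ i).pow _).mul ((Complex.conjCLE.contDiff.comp (contDiff_apply ℝ ℂ i)).pow _)

theorem VFlow.orbit_lip {N : ℕ} (V : VFlow N) (a b : Fin N → ℕ) {z : Conf N}
    (hz : Function.Injective z) :
    ∃ L : ℝ, ∀ s t, ‖mono a b (V.φ s z) - mono a b (V.φ t z)‖ ≤ L * |s - t| := by
  have hsol : Sol (vel (N := N)) (NC N) (fun t => V.φ t z) univ := fun t _ =>
    ⟨(V.motion z hz t).1, hasDerivAt_pi.mpr (V.motion z hz t).2⟩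
  have hK : ∀ t, V.φ t z ∈ B1a_K N (inertia z)
      (Real.exp (B1a_en z - N * N * (2 * inertia z + 2))) := by
    intro t
    obtain ⟨h1, h2, -⟩ := B1a_conserved isOpen_univ isPreconnected_univ hsol (mem_univ t)
      (mem_univ 0)
    rw [V.zero] at h1 h2
    exact ⟨h2.le, fun i j hij => B1a_apart (V.motion z hz t).1 h2.le h1.ge hij⟩
  have hKNC : B1a_K N (inertia z) (Real.exp (B1a_en z - N * N * (2 * inertia z + 2))) ⊆ NC N :=
    B1a_K_subset (Real.exp_pos _)
  have hcont : ContinuousOn (fun y : Conf N =>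
      fderiv ℝ (fun w : Fin N → ℂ => mono a b w) y (vel y)) (NC N) :=
    ((B10D_mono_contDiff a b).continuous_fderiv (by norm_num)).continuousOn.clm_apply
      (vel_contDiffOn N).continuousOn
  obtain ⟨L, hL⟩ := (B1a_K_compact N (inertia z)
    (Real.exp (B1a_en z - N * N * (2 * inertia z + 2)))).exists_bound_of_continuousOn
    (hcont.mono hKNC)
  refine ⟨L, fun s t => ?_⟩
  have hd : ∀ t, HasDerivAt (fun t => mono a b (V.φ t z))
      (fderiv ℝ (fun w : Fin N → ℂ => mono a b w) (V.φ t z) (vel (V.φ t z))) t := fun t =>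
    (((B10D_mono_contDiff a b).differentiable (by norm_num)) (V.φ t z)).hasFDerivAt.comp_hasDerivAt
      t (hsol t (mem_univ t)).2
  have h := Convex.norm_image_sub_le_of_norm_hasDerivWithin_le (s := univ)
    (f := fun t => mono a b (V.φ t z)) (C := L) (x := t) (y := s)
    (fun t _ => (hd t).hasDerivWithinAt) (fun t _ => hL _ (hK t)) convex_univ (mem_univ t)
    (mem_univ s)
  rw [Real.norm_eq_abs] at h
  exact h

end

end Pool.Agent.Lib_helper25.PV
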