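import Mathlib

/-! Project PV (MP_b08f5f_an), block B8B: if the means over the scale converge without time average,
then the time averages converge. -/

set_option autoImplicit false

namespace Pool.Agent.Lib_helper25.PV

open MeasureTheory Filter Topology Set

noncomputable section

/-- the step `M t = q M (q t) + (1 - q) W t` with `W` close to `l` -/
theorem B8B_step {M : ℝ → ℝ} {B q l δ : ℝ} (hB : ∀ t, 0 < t → |M t| ≤ B) (hq0 : 0 < q)
    (hq1 : q < 1)
    (h : ∀ᶠ t in atTop, |M t - q * M (q * t) - (1 - q) * l| ≤ (1 - q) * δ) {ε : ℝ} (hε : 0 < ε) :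
    ∀ᶠ t in atTop, |M t - l| ≤ δ + ε := by
  obtain ⟨t1, ht1⟩ := (eventually_atTop.mp h)
  set t0 : ℝ := max t1 1 with ht0
  have ht0' : 0 < t0 := lt_of_lt_of_le one_pos (le_max_right _ _)
  have hstep : ∀ t, t0 ≤ t → |M t - q * M (q * t) - (1 - q) * l| ≤ (1 - q) * δ := fun t ht =>
    ht1 t ((le_max_left _ _).trans ht)
  have hδ : 0 ≤ δ := by
    have h1 := (abs_nonneg _).trans (hstep t0 le_rfl)
    exact nonneg_of_mul_nonneg_right h1 (by linarith)
  have hclaim : ∀ n : ℕ, ∀ t, t0 ≤ q ^ n * t → |M t - l| ≤ q ^ n * (B + |l|) + δ := by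
    intro n
    induction n with
    | zero =>
      intro t ht
      rw [pow_zero, one_mul] at ht
      rw [pow_zero, one_mul]
      have h1 := hB t (ht0'.trans_le ht)
      have h2 := abs_sub (M t) l
      linarith
    | succ n ih =>
      intro t ht
      have hqn : 0 < q ^ (n + 1) := pow_pos hq0 _
      have htpos : 0 < t := by
        by_contra h'
        have : q ^ (n + 1) * t ≤ 0 := mul_nonpos_of_nonneg_of_nonpos hqn.le (not_lt.mp h')
        linarith
      have h1 : t0 ≤ q ^ n * (q * t) := by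
        rw [← mul_assoc, ← pow_succ]
        exact ht
      have h2 := ih (q * t) h1
      have h3 : t0 ≤ t := by
        have : q ^ (n + 1) * t ≤ 1 * t :=
          mul_le_mul_of_nonneg_right (pow_le_one₀ hq0.le hq1.le) htpos.le
        linarith
      have h4 := hstep t h3
      have e : M t - l = (M t - q * M (q * t) - (1 - q) * l) + q * (M (q * t) - l) := by ring
      rw [e]
      calc |(M t - q * M (q * t) - (1 - q) * l) + q * (M (q * t) - l)|
          ≤ |M t - q * M (q * t) - (1 - q) * l| + |q * (M (q * t) - l)| := abs_add_le _ _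
        _ ≤ (1 - q) * δ + q * (q ^ n * (B + |l|) + δ) := by
          rw [abs_mul, abs_of_pos hq0]
          exact add_le_add h4 (mul_le_mul_of_nonneg_left h2 hq0.le)
        _ = q ^ (n + 1) * (B + |l|) + δ := by ring
  obtain ⟨n, hn⟩ : ∃ n : ℕ, q ^ n * (B + |l|) < ε := by
    have h1 : Tendsto (fun n : ℕ => q ^ n * (B + |l|)) atTop (𝓝 (0 * (B + |l|))) :=
      (tendsto_pow_atTop_nhds_zero_of_lt_one hq0.le hq1).mul_const _
    rw [zero_mul] at h1
    exact ((h1.eventually (gt_mem_nhds hε)).exists)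
  filter_upwards [eventually_ge_atTop (t0 / q ^ n)] with t ht
  have h1 : t0 ≤ q ^ n * t := by
    rw [div_le_iff₀ (pow_pos hq0 n)] at ht
    linarith
  have h2 := hclaim n t h1
  linarith

/-- window average as an average over the scale -/
theorem B8B_window {h : ℝ → ℝ} (hh : Continuous h) {c t : ℝ} (hc : 1 < c) (ht : 0 < t) :
    ∫ r in (1 : ℝ)..c, 2 * r⁻¹ ^ 3 * h (t / r ^ 2) = t⁻¹ * ∫ s in (t / c ^ 2)..t, h s := by
  have h1 : ∀ r ∈ uIcc (1 : ℝ) c, HasDerivAt (fun r : ℝ => t / r ^ 2) (-(2 * t) * r⁻¹ ^ 3) r := by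
    intro r hr
    rw [uIcc_of_le hc.le] at hr
    have hr0 : r ≠ 0 := by
      have := hr.1
      positivity
    have h2 := (hasDerivAt_pow 2 r).inv (pow_ne_zero 2 hr0)
    have h3 := h2.const_mul t
    refine (h3.congr_of_eventuallyEq (Eventually.of_forall fun s => ?_)).congr_deriv ?_
    · simp only [Pi.inv_apply, div_eq_mul_inv]
    · field_simp
      push_cast
      ring
  have h2 : ContinuousOn (fun r : ℝ => -(2 * t) * r⁻¹ ^ 3) (uIcc (1 : ℝ) c) := by
    refine continuousOn_const.mul ((continuousOn_id.inv₀ fun r hr => ?_).pow 3)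
    rw [uIcc_of_le hc.le] at hr
    have := hr.1
    simp only [id]
    positivity
  have h3 := intervalIntegral.integral_comp_mul_deriv h1 h2 hh
  have h4 : ∫ r in (1 : ℝ)..c, (h ∘ fun r : ℝ => t / r ^ 2) r * (-(2 * t) * r⁻¹ ^ 3) =
      -t * ∫ r in (1 : ℝ)..c, 2 * r⁻¹ ^ 3 * h (t / r ^ 2) := by
    rw [← intervalIntegral.integral_const_mul]
    refine intervalIntegral.integral_congr fun r _ => ?_
    simp only [Function.comp]
    ring
  rw [h4, one_pow, div_one, intervalIntegral.integral_symm (t / c ^ 2) t] at h3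
  have h5 : ∫ s in (t / c ^ 2)..t, h s = t * ∫ r in (1 : ℝ)..c, 2 * r⁻¹ ^ 3 * h (t / r ^ 2) := by
    linarith
  rw [h5, ← mul_assoc, inv_mul_cancel₀ ht.ne', one_mul]

theorem B8B_mass {c : ℝ} (hc : 1 < c) : ∫ r in (1 : ℝ)..c, 2 * r⁻¹ ^ 3 = 1 - 1 / c ^ 2 := by
  have h1 := B8B_window (h := fun _ => (1 : ℝ)) continuous_const hc one_pos
  simp only [mul_one, intervalIntegral.integral_const, smul_eq_mul, inv_one, one_mul] at h1
  exact h1

variable {E : Type*} [NormedAddCommGroup E] [NormedSpace ℝ E] [ProperSpace E]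

/-- for every `δ` there is a density of the scale whose limit is within `δ` of the time averages -/
theorem B8B_core {x : ℝ → E} (hx : Continuous x) {R : ℝ} (hR : ∀ t, ‖x t‖ ≤ R)
    {m : E → ℝ} (hm : Continuous m) {δ : ℝ} (hδ : 0 < δ) :
    ∃ w : ℝ → ℝ, IntegrableOn w (Ioi 0) ∧ (∀ r, 2 < r → w r = 0) ∧ ∀ l : ℝ,
      Tendsto (fun t : ℝ => ∫ r in Ioi (0 : ℝ), w r * m (r • x (t / r ^ 2))) atTop (𝓝 l) →
      ∀ᶠ T : ℝ in atTop, |(T⁻¹ * ∫ s in (0 : ℝ)..T, m (x s)) - l| ≤ δ := by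
  have hR0 : 0 ≤ R := (norm_nonneg _).trans (hR 0)
  have huc : UniformContinuousOn m (Metric.closedBall 0 (2 * R)) :=
    (isCompact_closedBall _ _).uniformContinuousOn_of_continuous hm.continuousOn
  rw [Metric.uniformContinuousOn_iff] at huc
  obtain ⟨η, hη, huc⟩ := huc (δ / 4) (by positivity)
  -- the scale
  set c : ℝ := 1 + min (1 / 2) (η / (R + 1) / 2) with hcdef
  have hc1 : 1 < c := by
    have : 0 < min (1 / 2 : ℝ) (η / (R + 1) / 2) := lt_min (by norm_num) (by positivity)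
    linarith
  have hc2 : c < 2 := by
    have : min (1 / 2 : ℝ) (η / (R + 1) / 2) ≤ 1 / 2 := min_le_left _ _
    linarith
  have hcη : (c - 1) * R < η := by
    have h1 : c - 1 ≤ η / (R + 1) / 2 := by
      rw [hcdef]
      have := min_le_right (1 / 2 : ℝ) (η / (R + 1) / 2)
      linarith
    have h2 : (c - 1) * R ≤ η / (R + 1) / 2 * R := mul_le_mul_of_nonneg_right h1 hR0
    have h3 : η / (R + 1) / 2 * R < η := by
      rw [div_div, div_mul_eq_mul_div, div_lt_iff₀ (by positivity)]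
      nlinarith
    linarith
  set q : ℝ := 1 / c ^ 2 with hq
  have hc0 : 0 < c := by linarith
  have hq0 : 0 < q := by positivity
  have hq1 : q < 1 := by
    rw [hq, div_lt_one (by positivity)]
    nlinarith
  have h1q : 0 < 1 - q := by linarith
  set w : ℝ → ℝ := (Ioc (1 : ℝ) c).indicator (fun r => (1 - q)⁻¹ * (2 * r⁻¹ ^ 3)) with hw
  have hcontw : ContinuousOn (fun r : ℝ => (1 - q)⁻¹ * (2 * r⁻¹ ^ 3)) (Icc (1 : ℝ) c) := by
    refine continuousOn_const.mul (continuousOn_const.mul ((continuousOn_id.inv₀ fun r hr => ?_).pow 3))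
    have := hr.1
    simp only [id]
    positivity
  have hwint : Integrable w := by
    rw [hw, integrable_indicator_iff measurableSet_Ioc]
    exact (hcontw.integrableOn_compact isCompact_Icc).mono_set Ioc_subset_Icc_self
  refine ⟨w, hwint.integrableOn, fun r hr => ?_, fun l hl => ?_⟩
  · rw [hw, indicator_of_notMem]
    intro h
    linarith [h.2]
  -- the mean over the scale
  have hI : ∀ t, ∫ r in Ioi (0 : ℝ), w r * m (r • x (t / r ^ 2)) =
      (1 - q)⁻¹ * ∫ r in (1 : ℝ)..c, 2 * r⁻¹ ^ 3 * m (r • x (t / r ^ 2)) := by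
    intro t
    have e1 : (fun r => w r * m (r • x (t / r ^ 2))) = (Ioc (1 : ℝ) c).indicator
        (fun r => (1 - q)⁻¹ * (2 * r⁻¹ ^ 3 * m (r • x (t / r ^ 2)))) := by
      funext r
      by_cases hr : r ∈ Ioc (1 : ℝ) c
      · rw [hw, indicator_of_mem hr, indicator_of_mem hr]
        ring
      · rw [hw, indicator_of_notMem hr, indicator_of_notMem hr, zero_mul]
    have e2 : Ioi (0 : ℝ) ∩ Ioc (1 : ℝ) c = Ioc (1 : ℝ) c :=
      inter_eq_right.mpr fun r hr => lt_trans one_pos hr.1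
    rw [e1, setIntegral_indicator measurableSet_Ioc, e2, intervalIntegral.integral_of_le hc1.le,
      integral_const_mul]
  set h : ℝ → ℝ := fun s => m (x s) with hh
  have hhc : Continuous h := hm.comp hx
  obtain ⟨B, hB⟩ : ∃ B, ∀ s, |h s| ≤ B := by
    obtain ⟨B, hB⟩ := (isCompact_closedBall (0 : E) R).exists_bound_of_continuousOn
      hm.continuousOn
    exact ⟨B, fun s => hB (x s) (by simpa using hR s)⟩
  set M : ℝ → ℝ := fun T => T⁻¹ * ∫ s in (0 : ℝ)..T, h s with hM
  have hMB : ∀ t, 0 < t → |M t| ≤ B := by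
    intro t ht
    have h1 : ‖∫ s in (0 : ℝ)..t, h s‖ ≤ B * |t - 0| :=
      intervalIntegral.norm_integral_le_of_norm_le_const fun s _ => hB s
    rw [Real.norm_eq_abs, sub_zero, abs_of_pos ht] at h1
    rw [hM]
    simp only
    rw [abs_mul, abs_of_pos (inv_pos.mpr ht), inv_mul_le_iff₀ ht]
    linarith
  have hMq : ∀ t, 0 < t → M t - q * M (q * t) = ∫ r in (1 : ℝ)..c, 2 * r⁻¹ ^ 3 * h (t / r ^ 2) := by
    intro t ht
    rw [B8B_window hhc hc1 ht]
    have e1 : t / c ^ 2 = q * t := by rw [hq]; ring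
    have e2 : ∫ s in (q * t)..t, h s = (∫ s in (0 : ℝ)..t, h s) - ∫ s in (0 : ℝ)..(q * t), h s := by
      rw [intervalIntegral.integral_interval_sub_left (hhc.intervalIntegrable _ _)
        (hhc.intervalIntegrable _ _)]
    rw [e1, e2, hM]
    simp only
    field_simp
  -- comparison
  have hcomp : ∀ t, |(∫ r in (1 : ℝ)..c, 2 * r⁻¹ ^ 3 * m (r • x (t / r ^ 2))) -
      ∫ r in (1 : ℝ)..c, 2 * r⁻¹ ^ 3 * h (t / r ^ 2)| ≤ (1 - q) * (δ / 4) := by
    intro t
    have hcx : ContinuousOn (fun r : ℝ => x (t / r ^ 2)) (uIcc (1 : ℝ) c) := by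
      refine hx.comp_continuousOn (continuousOn_const.div (continuousOn_id.pow 2) fun r hr => ?_)
      rw [uIcc_of_le hc1.le] at hr
      have := hr.1
      positivity
    have hcr : ContinuousOn (fun r : ℝ => 2 * r⁻¹ ^ 3) (uIcc (1 : ℝ) c) := by
      refine continuousOn_const.mul ((continuousOn_id.inv₀ fun r hr => ?_).pow 3)
      rw [uIcc_of_le hc1.le] at hr
      have := hr.1
      simp only [id]
      positivity
    have i1 : IntervalIntegrable (fun r : ℝ => 2 * r⁻¹ ^ 3 * m (r • x (t / r ^ 2))) volume 1 c :=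
      (hcr.mul (hm.comp_continuousOn (continuousOn_id.smul hcx))).intervalIntegrable
    have i2 : IntervalIntegrable (fun r : ℝ => 2 * r⁻¹ ^ 3 * h (t / r ^ 2)) volume 1 c :=
      (hcr.mul (hm.comp_continuousOn hcx)).intervalIntegrable
    rw [← intervalIntegral.integral_sub i1 i2, ← Real.norm_eq_abs]
    have i3 : IntervalIntegrable (fun r : ℝ => 2 * r⁻¹ ^ 3 * (δ / 4)) volume 1 c :=
      (hcr.mul continuousOn_const).intervalIntegrable
    have h1 : ‖∫ r in (1 : ℝ)..c, (2 * r⁻¹ ^ 3 * m (r • x (t / r ^ 2)) -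
        2 * r⁻¹ ^ 3 * h (t / r ^ 2))‖ ≤ ∫ r in (1 : ℝ)..c, 2 * r⁻¹ ^ 3 * (δ / 4) := by
      refine intervalIntegral.norm_integral_le_of_norm_le hc1.le ?_ i3
      refine Eventually.of_forall fun r hr => ?_
      have hr1 : 1 < r := hr.1
      have hr0 : 0 < r := by linarith
      have hrc : r ≤ c := hr.2
      rw [← mul_sub, norm_mul, Real.norm_eq_abs, abs_of_pos (by positivity : (0 : ℝ) < 2 * r⁻¹ ^ 3)]
      refine mul_le_mul_of_nonneg_left ?_ (by positivity)
      set y := x (t / r ^ 2) with hy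
      have hyR : ‖y‖ ≤ R := hR _
      have h2 : dist (m (r • y)) (m y) < δ / 4 := by
        refine huc (r • y) ?_ y ?_ ?_
        · rw [mem_closedBall_zero_iff, norm_smul, Real.norm_eq_abs, abs_of_pos hr0]
          exact mul_le_mul (by linarith) hyR (norm_nonneg _) (by norm_num)
        · rw [mem_closedBall_zero_iff]
          linarith
        · have e3 : r • y - y = (r - 1) • y := by rw [sub_smul, one_smul]
          rw [dist_eq_norm, e3, norm_smul, Real.norm_eq_abs, abs_of_pos (by linarith)]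
          calc (r - 1) * ‖y‖ ≤ (c - 1) * R :=
                mul_le_mul (by linarith) hyR (norm_nonneg _) (by linarith)
            _ < η := hcη
      rw [dist_eq_norm] at h2
      exact h2.le
    refine h1.trans (le_of_eq ?_)
    rw [intervalIntegral.integral_mul_const, B8B_mass hc1]
  have hstep : ∀ᶠ t in atTop, |M t - q * M (q * t) - (1 - q) * l| ≤ (1 - q) * (δ / 2) := by
    have h1 : ∀ᶠ t in atTop, |(∫ r in Ioi (0 : ℝ), w r * m (r • x (t / r ^ 2))) - l| ≤ δ / 4 := by
      have := (Metric.tendsto_nhds.mp hl) (δ / 4) (by positivity)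
      filter_upwards [this] with t ht
      rw [Real.dist_eq] at ht
      exact ht.le
    filter_upwards [h1, eventually_gt_atTop (0 : ℝ)] with t ht ht0
    rw [hI] at ht
    rw [hMq t ht0]
    have h2 := hcomp t
    set P := ∫ r in (1 : ℝ)..c, 2 * r⁻¹ ^ 3 * m (r • x (t / r ^ 2))
    set Q := ∫ r in (1 : ℝ)..c, 2 * r⁻¹ ^ 3 * h (t / r ^ 2)
    have h3 : |P - (1 - q) * l| ≤ (1 - q) * (δ / 4) := by
      have e4 : P - (1 - q) * l = (1 - q) * ((1 - q)⁻¹ * P - l) := by
        field_simp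
      rw [e4, abs_mul, abs_of_pos h1q]
      exact mul_le_mul_of_nonneg_left ht h1q.le
    have e5 : Q - (1 - q) * l = (P - (1 - q) * l) - (P - Q) := by ring
    rw [e5]
    calc |(P - (1 - q) * l) - (P - Q)| ≤ |P - (1 - q) * l| + |P - Q| := abs_sub _ _
      _ ≤ (1 - q) * (δ / 4) + (1 - q) * (δ / 4) := add_le_add h3 h2
      _ = (1 - q) * (δ / 2) := by ring
  have hfin := B8B_step hMB hq0 hq1 hstep (show (0 : ℝ) < δ / 2 by positivity)
  filter_upwards [hfin] with t ht
  have : δ / 2 + δ / 2 = δ := by ring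
  rw [this] at ht
  exact ht

theorem ray_tauber {x : ℝ → E} (hx : Continuous x) {R : ℝ} (hR : ∀ t, ‖x t‖ ≤ R)
    {m : E → ℝ} (hm : Continuous m)
    (h : ∀ w : ℝ → ℝ, IntegrableOn w (Ioi 0) → (∀ r, 2 < r → w r = 0) → ∃ l : ℝ,
      Tendsto (fun t : ℝ => ∫ r in Ioi (0 : ℝ), w r * m (r • x (t / r ^ 2))) atTop (𝓝 l)) :
    ∃ l : ℝ, Tendsto (fun T : ℝ => T⁻¹ * ∫ s in (0 : ℝ)..T, m (x s)) atTop (𝓝 l) := by
  have hc : Cauchy (map (fun T : ℝ => T⁻¹ * ∫ s in (0 : ℝ)..T, m (x s)) atTop) := by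
    rw [Metric.cauchy_iff]
    refine ⟨map_neBot, fun ε hε => ?_⟩
    obtain ⟨w, hw1, hw2, hw3⟩ := B8B_core hx hR hm (show (0 : ℝ) < ε / 4 by positivity)
    obtain ⟨l, hl⟩ := h w hw1 hw2
    refine ⟨{y | |y - l| ≤ ε / 4}, hw3 l hl, fun a ha b hb => ?_⟩
    rw [Real.dist_eq]
    have e : a - b = (a - l) - (b - l) := by ring
    rw [e]
    have h1 := abs_sub (a - l) (b - l)
    have ha' : |a - l| ≤ ε / 4 := ha
    have hb' : |b - l| ≤ ε / 4 := hb
    linarith
  obtain ⟨l, hl⟩ := CompleteSpace.complete hc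
  exact ⟨l, hl⟩

theorem ray_tauber_zero {x : ℝ → E} (hx : Continuous x) {R : ℝ} (hR : ∀ t, ‖x t‖ ≤ R)
    {m : E → ℝ} (hm : Continuous m)
    (h : ∀ w : ℝ → ℝ, IntegrableOn w (Ioi 0) → (∀ r, 2 < r → w r = 0) →
      Tendsto (fun t : ℝ => ∫ r in Ioi (0 : ℝ), w r * m (r • x (t / r ^ 2))) atTop (𝓝 0)) :
    Tendsto (fun T : ℝ => T⁻¹ * ∫ s in (0 : ℝ)..T, m (x s)) atTop (𝓝 0) := by
  rw [Metric.tendsto_nhds]
  intro ε hε
  obtain ⟨w, hw1, hw2, hw3⟩ := B8B_core hx hR hm (show (0 : ℝ) < ε / 2 by positivity)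
  filter_upwards [hw3 0 (h w hw1 hw2)] with t ht
  rw [Real.dist_eq]
  linarith

end

end Pool.Agent.Lib_helper25.PV
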