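import Pool.Agent.Lib_helper25.PV.Defs
import Pool.Agent.Lib_helper52.PV.B8A
import Pool.Agent.Lib_helper68.PV.B8B

/-! Project PV (MP_b08f5f_an), block B9: the question at one datum `z` is the isotropy, without time
average, of the ray `r z` with a random scale `r`. -/

set_option autoImplicit false

namespace Pool.Agent.Lib_helper25.PV

open MeasureTheory Filter Topology Set
open scoped ComplexConjugate

noncomputable section

/-- the question at the datum `z` -/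
def IsoAt {N : ℕ} (φ : ℝ → Conf N → Conf N) (z : Conf N) : Prop :=
  ∀ Φ : ℂ → ℝ, Continuous Φ → ∃ l : ℝ, ∀ θ : ℝ,
    Tendsto (fun T : ℝ => T⁻¹ * ∫ t in (0 : ℝ)..T, (∑ k, Φ (seen θ (φ t z) k)) / N) atTop (𝓝 l)

/-- the ray `r z` with a random scale `r` becomes isotropic -/
def RayIso {N : ℕ} (φ : ℝ → Conf N → Conf N) (z : Conf N) : Prop :=
  ∀ w : ℝ → ℝ, IntegrableOn w (Ioi 0) → ∀ Φ : ℂ → ℝ, Continuous Φ → (∃ C, ∀ x, |Φ x| ≤ C) →
    ∃ l : ℝ, ∀ θ : ℝ, Tendsto (fun t : ℝ => ∫ r in Ioi (0 : ℝ),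
      w r * ((∑ k, Φ (seen θ (φ t ((r : ℂ) • z)) k)) / N)) atTop (𝓝 l)

/-- the mean of `Φ` over the points of `y` turned by `θ` -/
def B9m {N : ℕ} (Φ : ℂ → ℝ) (θ : ℝ) (y : Conf N) : ℝ :=
  (∑ k, Φ (Complex.exp (θ * Complex.I) * y k)) / N

/-- the orbit seen from its centre -/
def B9x {N : ℕ} (V : VFlow N) (z : Conf N) (t : ℝ) : Conf N :=
  fun k => V.φ t z k - centre (V.φ t z)

theorem B9_m_continuous {N : ℕ} {Φ : ℂ → ℝ} (hΦ : Continuous Φ) (θ : ℝ) :
    Continuous (B9m (N := N) Φ θ) := by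
  unfold B9m
  fun_prop

theorem B9_m_le {N : ℕ} {Φ : ℂ → ℝ} {C : ℝ} (hC : ∀ x, |Φ x| ≤ C) (θ : ℝ) (y : Conf N) :
    |B9m Φ θ y| ≤ C := by
  have hC0 : 0 ≤ C := (abs_nonneg _).trans (hC 0)
  rcases Nat.eq_zero_or_pos N with h | h
  · subst h
    simp [B9m, hC0]
  · have hN : (0 : ℝ) < N := by exact_mod_cast h
    unfold B9m
    rw [abs_div, abs_of_pos hN, div_le_iff₀ hN]
    calc |∑ k, Φ (Complex.exp (θ * Complex.I) * y k)|
        ≤ ∑ k, |Φ (Complex.exp (θ * Complex.I) * y k)| := Finset.abs_sum_le_sum_abs _ _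
      _ ≤ ∑ _k : Fin N, C := Finset.sum_le_sum fun k _ => hC _
      _ = C * N := by
        rw [Finset.sum_const, Finset.card_univ, Fintype.card_fin, nsmul_eq_mul, mul_comm]

theorem B9_centre_continuous {N : ℕ} : Continuous (centre (N := N)) := by
  unfold centre
  fun_prop

theorem B9_x_continuous {N : ℕ} (V : VFlow N) (z : Conf N) : Continuous (B9x V z) := by
  unfold B9x
  have h1 := V.cont z
  have h2 : Continuous fun t => centre (V.φ t z) := B9_centre_continuous.comp h1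
  refine continuous_pi fun k => ?_
  exact ((continuous_apply k).comp h1).sub h2

theorem B9_norm_le {N : ℕ} (y : Conf N) (k : Fin N) : ‖y k‖ ≤ Real.sqrt (inertia y) := by
  refine Real.le_sqrt_of_sq_le ?_
  exact Finset.single_le_sum (f := fun k => ‖y k‖ ^ 2) (fun i _ => sq_nonneg _) (Finset.mem_univ k)

theorem B9_x_norm {N : ℕ} (V : VFlow N) (z : Conf N) (t : ℝ) :
    ‖B9x V z t‖ ≤ Real.sqrt (inertia z) + ‖centre z‖ := by
  refine (pi_norm_le_iff_of_nonneg (by positivity)).mpr fun k => ?_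
  have h1 := B9_norm_le (V.φ t z) k
  rw [V.inert] at h1
  unfold B9x
  rw [V.cen]
  exact (norm_sub_le _ _).trans (by linarith)

theorem B9_seen {N : ℕ} (V : VFlow N) (z : Conf N) (θ t : ℝ) (Φ : ℂ → ℝ) :
    (∑ k, Φ (seen θ (V.φ t z) k)) / N = B9m Φ θ (B9x V z t) := rfl

theorem B9_seen_ray {N : ℕ} (V : VFlow N) (z : Conf N) (θ t : ℝ) (Φ : ℂ → ℝ) {r : ℝ}
    (hr : 0 < r) :
    (∑ k, Φ (seen θ (V.φ t ((r : ℂ) • z)) k)) / N = B9m Φ θ (r • B9x V z (t / r ^ 2)) := by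
  unfold B9m
  congr 1
  refine Finset.sum_congr rfl fun k _ => ?_
  congr 1
  rw [V.scale r hr]
  unfold seen B9x centre
  congr 1
  simp only [Pi.smul_apply, smul_eq_mul, Complex.real_smul, ← Finset.mul_sum]
  ring

theorem B9_scale {N : ℕ} (y : Conf N) (θ : ℝ) (Φ : ℂ → ℝ) (r : ℝ) :
    B9m Φ θ (r • y) = B9m (fun x => Φ (r * x)) θ y := by
  unfold B9m
  congr 1
  refine Finset.sum_congr rfl fun k _ => ?_
  congr 1
  simp only [Pi.smul_apply, Complex.real_smul]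
  ring

theorem B9_ray_eq {N : ℕ} (V : VFlow N) (z : Conf N) (θ t : ℝ) (Φ : ℂ → ℝ) (w : ℝ → ℝ) :
    ∫ r in Ioi (0 : ℝ), w r * ((∑ k, Φ (seen θ (V.φ t ((r : ℂ) • z)) k)) / N) =
      ∫ r in Ioi (0 : ℝ), w r * B9m Φ θ (r • B9x V z (t / r ^ 2)) := by
  refine setIntegral_congr_fun measurableSet_Ioi fun r hr => ?_
  rw [B9_seen_ray V z θ t Φ hr]

theorem B9_integrable {N : ℕ} (V : VFlow N) (z : Conf N) (t : ℝ) {w : ℝ → ℝ}
    (hw : IntegrableOn w (Ioi 0)) {m : Conf N → ℝ} (hm : Continuous m) {C : ℝ}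
    (hC : ∀ y, |m y| ≤ C) :
    IntegrableOn (fun r => w r * m (r • B9x V z (t / r ^ 2))) (Ioi 0) := by
  refine Integrable.mul_bdd hw (c := C) ?_ (Eventually.of_forall fun r => ?_)
  · refine ContinuousOn.aestronglyMeasurable ?_ measurableSet_Ioi
    intro r hr
    have hr0 : r ^ 2 ≠ 0 := pow_ne_zero 2 (ne_of_gt hr)
    have h1 : ContinuousAt (fun r : ℝ => t / r ^ 2) r :=
      continuousAt_const.div (continuousAt_id.pow 2) hr0
    have h2 : ContinuousAt (fun r : ℝ => B9x V z (t / r ^ 2)) r :=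
      (B9_x_continuous V z).continuousAt.comp h1
    have h3 : ContinuousAt (fun r : ℝ => r • B9x V z (t / r ^ 2)) r := continuousAt_id.smul h2
    exact (hm.continuousAt.comp h3).continuousWithinAt
  · rw [Real.norm_eq_abs]
    exact hC _

theorem B9_forward {N : ℕ} (V : VFlow N) (z : Conf N) (h : IsoAt V.φ z) : RayIso V.φ z := by
  intro w hw Φ hΦ hC
  obtain ⟨C, hC⟩ := hC
  have h1 : ∀ r : ℝ, ∃ l : ℝ, ∀ θ : ℝ, Tendsto (fun T : ℝ => T⁻¹ * ∫ s in (0 : ℝ)..T,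
      B9m Φ θ (r • B9x V z s)) atTop (𝓝 l) := by
    intro r
    obtain ⟨l, hl⟩ := h (fun x => Φ (r * x)) (by fun_prop)
    refine ⟨l, fun θ => ?_⟩
    simp only [B9_scale]
    exact hl θ
  choose g hg using h1
  refine ⟨∫ r in Ioi (0 : ℝ), w r * g r, fun θ => ?_⟩
  simp only [B9_ray_eq]
  exact ray_abel (B9_x_continuous V z) (B9_x_norm V z) (B9_m_continuous hΦ θ) (B9_m_le hC θ)
    (fun r _ => hg r θ) hw

theorem B9_backward {N : ℕ} (V : VFlow N) (z : Conf N) (h : RayIso V.φ z) : IsoAt V.φ z := by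
  intro Φ hΦ
  set R : ℝ := Real.sqrt (inertia z) + ‖centre z‖ with hR
  have hR0 : 0 ≤ R := by positivity
  obtain ⟨C, hC⟩ : ∃ C : ℝ, ∀ x : ℂ, ‖x‖ ≤ 2 * R → |Φ x| ≤ C := by
    obtain ⟨C, hC⟩ := (isCompact_closedBall (0 : ℂ) (2 * R)).exists_bound_of_continuousOn
      hΦ.continuousOn
    exact ⟨C, fun x hx => hC x (by simpa using hx)⟩
  have hC0 : 0 ≤ C := (abs_nonneg _).trans (hC 0 (by simpa using by positivity))
  set Φ' : ℂ → ℝ := fun x => max (-C) (min C (Φ x)) with hΦ'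
  have hΦ'c : Continuous Φ' := by fun_prop
  have hΦ'C : ∀ x, |Φ' x| ≤ C := fun x => by
    rw [abs_le]
    exact ⟨le_max_left _ _, max_le (by linarith) (min_le_left _ _)⟩
  have hΦ'e : ∀ x : ℂ, ‖x‖ ≤ 2 * R → Φ' x = Φ x := fun x hx => by
    have := abs_le.mp (hC x hx)
    rw [hΦ']
    simp only
    rw [min_eq_right this.2, max_eq_right this.1]
  have hme : ∀ (θ r t : ℝ), 0 < r → r ≤ 2 →
      B9m Φ' θ (r • B9x V z t) = B9m Φ θ (r • B9x V z t) := by
    intro θ r t hr hr2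
    unfold B9m
    congr 1
    refine Finset.sum_congr rfl fun k _ => hΦ'e _ ?_
    rw [norm_mul, Complex.norm_exp_ofReal_mul_I, one_mul]
    calc ‖(r • B9x V z t) k‖ ≤ ‖r • B9x V z t‖ := norm_le_pi_norm _ k
      _ = r * ‖B9x V z t‖ := by rw [norm_smul, Real.norm_eq_abs, abs_of_pos hr]
      _ ≤ 2 * R := mul_le_mul hr2 (B9_x_norm V z t) (norm_nonneg _) (by norm_num)
  have hint : ∀ (θ : ℝ) (w : ℝ → ℝ), (∀ r, 2 < r → w r = 0) → ∀ t,
      ∫ r in Ioi (0 : ℝ), w r * B9m Φ' θ (r • B9x V z (t / r ^ 2)) =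
        ∫ r in Ioi (0 : ℝ), w r * B9m Φ θ (r • B9x V z (t / r ^ 2)) := by
    intro θ w hw2 t
    refine setIntegral_congr_fun measurableSet_Ioi fun r hr => ?_
    rcases lt_or_ge 2 r with h2 | h2
    · rw [hw2 r h2, zero_mul, zero_mul]
    · rw [hme θ r _ hr h2]
  have hmain : ∀ w : ℝ → ℝ, IntegrableOn w (Ioi 0) → ∃ l : ℝ, ∀ θ : ℝ, Tendsto (fun t : ℝ =>
      ∫ r in Ioi (0 : ℝ), w r * B9m Φ' θ (r • B9x V z (t / r ^ 2))) atTop (𝓝 l) := by
    intro w hw
    obtain ⟨l, hl⟩ := h w hw Φ' hΦ'c ⟨C, hΦ'C⟩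
    refine ⟨l, fun θ => ?_⟩
    have := hl θ
    simp only [B9_ray_eq] at this
    exact this
  obtain ⟨l, hl⟩ := ray_tauber (B9_x_continuous V z) (B9_x_norm V z)
    (B9_m_continuous (N := N) hΦ 0) (fun w hw hw2 => by
      obtain ⟨l, hl⟩ := hmain w hw
      refine ⟨l, ?_⟩
      have := hl 0
      simp only [hint 0 w hw2] at this
      exact this)
  refine ⟨l, fun θ => ?_⟩
  have h0 := ray_tauber_zero (B9_x_continuous V z) (B9_x_norm V z)
    (m := fun y => B9m Φ' θ y - B9m Φ' 0 y)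
    ((B9_m_continuous (N := N) hΦ'c θ).sub (B9_m_continuous hΦ'c 0)) (fun w hw hw2 => by
      obtain ⟨l, hl⟩ := hmain w hw
      have h1 := (hl θ).sub (hl 0)
      rw [sub_self] at h1
      refine h1.congr fun t => ?_
      rw [← integral_sub (B9_integrable V z t hw (B9_m_continuous hΦ'c θ) (B9_m_le hΦ'C θ))
        (B9_integrable V z t hw (B9_m_continuous hΦ'c 0) (B9_m_le hΦ'C 0))]
      refine setIntegral_congr_fun measurableSet_Ioi fun r hr => ?_
      ring)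
  have hme1 : ∀ θ s, B9m Φ' θ (B9x V z s) = B9m Φ θ (B9x V z s) := fun θ s => by
    have := hme θ 1 s one_pos (by norm_num)
    rwa [one_smul] at this
  simp only [hme1] at h0
  have h1 := h0.add hl
  rw [zero_add] at h1
  refine h1.congr fun T => ?_
  simp only [B9_seen]
  rw [← mul_add, ← intervalIntegral.integral_add]
  · congr 1
    refine intervalIntegral.integral_congr fun s _ => ?_
    ring
  · exact (((B9_m_continuous hΦ θ).comp (B9_x_continuous V z)).sub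
      ((B9_m_continuous hΦ 0).comp (B9_x_continuous V z))).intervalIntegrable _ _
  · exact ((B9_m_continuous hΦ 0).comp (B9_x_continuous V z)).intervalIntegrable _ _

theorem isoAt_iff {N : ℕ} (V : VFlow N) (z : Conf N) : IsoAt V.φ z ↔ RayIso V.φ z :=
  ⟨B9_forward V z, B9_backward V z⟩

end

end Pool.Agent.Lib_helper25.PV
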