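import Pool.Agent.Lib_helper25.PV.Defs

/-! Project PV (MP_b08f5f_an), block B2, trace half: the derivative of the velocity field anticommutes
with the multiplication by `i` (the field is the conjugate of a holomorphic one), so its real trace is
zero. -/

set_option autoImplicit false

namespace Pool.Agent.Lib_helper25.PV

open MeasureTheory Filter Topology Set
open scoped ComplexConjugate

noncomputable section

/-- a real linear map that anticommutes with the multiplication by `i` has trace zero -/
theorem B2_trace_anti {N : ℕ} (L : Conf N →ₗ[ℝ] Conf N)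
    (h : ∀ x, L (Complex.I • x) = -(Complex.I • L x)) : LinearMap.trace ℝ (Conf N) L = 0 := by
  set J : Conf N →ₗ[ℝ] Conf N :=
    (Complex.I • (LinearMap.id : Conf N →ₗ[ℂ] Conf N)).restrictScalars ℝ with hJ
  have hJx : ∀ x, J x = Complex.I • x := fun x => rfl
  have h3 : LinearMap.trace ℝ (Conf N) (J * (L * J)) = LinearMap.trace ℝ (Conf N) ((L * J) * J) :=
    LinearMap.trace_mul_comm ℝ J (L * J)
  have h4 : J * (L * J) = L := by
    refine LinearMap.ext fun x => ?_
    simp only [Module.End.mul_apply, hJx, h, smul_neg, smul_smul, Complex.I_mul_I, neg_smul,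
      one_smul, neg_neg]
  have h5 : (L * J) * J = -L := by
    refine LinearMap.ext fun x => ?_
    simp only [Module.End.mul_apply, hJx, smul_smul, Complex.I_mul_I, neg_smul, one_smul,
      map_neg, LinearMap.neg_apply]
  rw [h4, h5, map_neg] at h3
  exact self_eq_neg.mp h3

theorem B2_fderiv_anti {N : ℕ} {z : Conf N} (hz : z ∈ NC N) (x : Conf N) :
    fderiv ℝ (vel (N := N)) z (Complex.I • x) = -(Complex.I • fderiv ℝ (vel (N := N)) z x) := by
  set g : Conf N → Conf N := fun z i =>
    conj (-(Complex.I / (2 * Real.pi))) * ∑ j ∈ Finset.univ.erase i, (z i - z j)⁻¹ with hg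
  have hgd : DifferentiableAt ℂ g z := by
    rw [differentiableAt_pi]
    intro i
    refine DifferentiableAt.const_mul ?_ _
    refine DifferentiableAt.fun_sum fun j hj => ?_
    have hji : j ≠ i := (Finset.mem_erase.mp hj).1
    have h1 : DifferentiableAt ℂ (fun z : Conf N => z i - z j) z :=
      (differentiableAt_apply i z).sub (differentiableAt_apply j z)
    exact h1.inv (sub_ne_zero.mpr fun e => hji (hz e).symm)
  have hv : vel (N := N) = fun z => (fun i => conj (g z i)) := by
    funext z i
    simp only [hg, vel, map_mul, map_sum, map_inv₀, Complex.conj_conj, one_div]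
  have h2 : HasFDerivAt g ((fderiv ℂ g z).restrictScalars ℝ) z :=
    hgd.hasFDerivAt.restrictScalars ℝ
  set C : Conf N →L[ℝ] Conf N :=
    ContinuousLinearMap.pi fun i => (Complex.conjCLE : ℂ →L[ℝ] ℂ).comp
      (ContinuousLinearMap.proj i) with hC
  have h3 : HasFDerivAt (fun z => C (g z)) (C.comp ((fderiv ℂ g z).restrictScalars ℝ)) z :=
    C.hasFDerivAt.comp z h2
  have h4 : vel (N := N) = fun z => C (g z) := by
    rw [hv]
    funext z i
    simp [hC]
  rw [h4, h3.fderiv]
  simp only [ContinuousLinearMap.comp_apply, ContinuousLinearMap.coe_restrictScalars', map_smul]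
  funext i
  simp [hC]

theorem B2_trace {N : ℕ} {z : Conf N} (hz : z ∈ NC N) :
    LinearMap.trace ℝ (Conf N) (fderiv ℝ (vel (N := N)) z : Conf N →ₗ[ℝ] Conf N) = 0 :=
  B2_trace_anti _ fun x => B2_fderiv_anti hz x

end

end Pool.Agent.Lib_helper25.PV
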