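import Pool.Agent.Lib_helper59.PV.PhaseErgodic

/-! Project PV (MP_b08f5f_an), zero-one law, block ZA: ergodic decomposition of a measurable flow on
a standard Borel space. -/

set_option autoImplicit false

namespace Pool.Agent.Lib_helper25.PV

open MeasureTheory Filter Topology Set ProbabilityTheory
open scoped ComplexConjugate

noncomputable section

/-- the measurable sets that are invariant up to null sets -/
@[reducible] def ZA_inv {α : Type*} [mα : MeasurableSpace α] (μ : Measure α) (φ : ℝ → α → α) :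
    MeasurableSpace α where
  MeasurableSet' s := MeasurableSet s ∧ ∀ t, φ t ⁻¹' s =ᵐ[μ] s
  measurableSet_empty := ⟨MeasurableSet.empty, fun t => by simp⟩
  measurableSet_compl s hs := ⟨hs.1.compl, fun t => by
    rw [preimage_compl]
    exact (hs.2 t).compl⟩
  measurableSet_iUnion f hf := ⟨MeasurableSet.iUnion fun i => (hf i).1, fun t => by
    rw [preimage_iUnion]
    exact Filter.EventuallyEq.countable_iUnion fun i => (hf i).2 t⟩

theorem ZA_inv_le {α : Type*} [mα : MeasurableSpace α] (μ : Measure α) (φ : ℝ → α → α) :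
    ZA_inv μ φ ≤ mα := fun _ hs => hs.1

theorem ZA_measurable {α : Type*} [mα : MeasurableSpace α] {μ : Measure α} {φ : ℝ → α → α}
    {g : α → ℂ} (hg : Measurable g) (hinv : ∀ t, ∀ᵐ x ∂μ, g (φ t x) = g x) :
    Measurable[ZA_inv μ φ] g := by
  intro B hB
  refine ⟨hg hB, fun t => ?_⟩
  filter_upwards [hinv t] with x hx
  have : (g (φ t x) ∈ B) = (g x ∈ B) := by rw [hx]
  exact this

variable {α : Type*} [mα : MeasurableSpace α] {μ : Measure α} [IsFiniteMeasure μ] {φ : ℝ → α → α}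

/-- the integral of the time average over an invariant set -/
theorem ZA_setIntegral (hmeas : Measurable (fun p : ℝ × α => φ p.1 p.2))
    (hmp : ∀ t, MeasurePreserving (φ t) μ μ) {f : α → ℂ} (hf : Measurable f) {C : ℝ}
    (hC : ∀ x, ‖f x‖ ≤ C) {s : Set α} (hs : MeasurableSet s) (hinv : ∀ t, φ t ⁻¹' s =ᵐ[μ] s)
    {n : ℕ} (hn : 0 < n) :
    ∫ x in s, ((n : ℂ)⁻¹ * ∫ t in (0 : ℝ)..(n : ℝ), f (φ t x)) ∂μ = ∫ x in s, f x ∂μ := by
  have hn0 : (0 : ℝ) ≤ n := by positivity
  have h1 : ∀ t, ∫ x in s, f (φ t x) ∂μ = ∫ x in s, f x ∂μ := by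
    intro t
    have h2 := setIntegral_map (μ := μ) (g := φ t) hs (f := f)
      (hf.aestronglyMeasurable) (hmp t).measurable.aemeasurable
    rw [(hmp t).map_eq] at h2
    rw [h2]
    exact setIntegral_congr_set (hinv t).symm
  rw [integral_const_mul]
  simp only [intervalIntegral.integral_of_le hn0]
  have h2 : Integrable (Function.uncurry fun (x : α) (t : ℝ) => f (φ t x))
      ((μ.restrict s).prod (volume.restrict (Ioc (0 : ℝ) n))) := by
    refine Integrable.of_bound ?_ C (Eventually.of_forall fun p => hC _)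
    exact (hf.comp (hmeas.comp measurable_swap)).aestronglyMeasurable
  rw [integral_integral_swap h2]
  simp only [h1]
  rw [setIntegral_const, Measure.real, Real.volume_Ioc, sub_zero, ENNReal.toReal_ofReal hn0,
    Complex.real_smul, ← mul_assoc]
  have : (n : ℂ) ≠ 0 := by exact_mod_cast hn.ne'
  push_cast
  rw [inv_mul_cancel₀ this, one_mul]

/-- the time average is the conditional expectation -/
theorem ZA_condExp (hmeas : Measurable (fun p : ℝ × α => φ p.1 p.2))
    (hmp : ∀ t, MeasurePreserving (φ t) μ μ) {f : α → ℂ} (hf : Measurable f) {C : ℝ}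
    (hC : ∀ x, ‖f x‖ ≤ C) {g : α → ℂ} (hg : Measurable[ZA_inv μ φ] g)
    (hgi : Integrable g μ)
    (hlim : ∀ᵐ x ∂μ, Tendsto (fun T : ℝ => (T : ℂ)⁻¹ * ∫ t in (0 : ℝ)..T, f (φ t x)) atTop
      (𝓝 (g x))) : g =ᵐ[μ] μ[f | ZA_inv μ φ] := by
  have hC0 : ∀ᵐ x ∂μ, 0 ≤ C := Eventually.of_forall fun x => (norm_nonneg _).trans (hC x)
  have hfi : Integrable f μ := Integrable.of_bound hf.aestronglyMeasurable C
    (Eventually.of_forall hC)
  refine ae_eq_condExp_of_forall_setIntegral_eq (ZA_inv_le μ φ) hfi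
    (fun s _ _ => hgi.integrableOn) (fun s hs _ => ?_) hg.aestronglyMeasurable
  have h1 : ∀ n : ℕ, Measurable fun x => (n : ℂ)⁻¹ * ∫ t in (0 : ℝ)..(n : ℝ), f (φ t x) := by
    intro n
    have hn0 : (0 : ℝ) ≤ n := by positivity
    simp only [intervalIntegral.integral_of_le hn0]
    have h2 : StronglyMeasurable (Function.uncurry fun (x : α) (t : ℝ) => f (φ t x)) :=
      (hf.comp (hmeas.comp measurable_swap)).stronglyMeasurable
    exact (h2.integral_prod_right (ν := volume.restrict (Ioc (0 : ℝ) n))).measurable.const_mul _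
  have h2 : Tendsto (fun n : ℕ => ∫ x in s, ((n : ℂ)⁻¹ * ∫ t in (0 : ℝ)..(n : ℝ), f (φ t x)) ∂μ)
      atTop (𝓝 (∫ x in s, g x ∂μ)) := by
    refine tendsto_integral_of_dominated_convergence (fun _ => C)
      (fun n => (h1 n).aestronglyMeasurable) (integrable_const C) (fun n => ?_) ?_
    · refine Eventually.of_forall fun x => ?_
      have hC0 : 0 ≤ C := (norm_nonneg _).trans (hC x)
      have h3 : ‖∫ t in (0 : ℝ)..(n : ℝ), f (φ t x)‖ ≤ C * |(n : ℝ) - 0| :=
        intervalIntegral.norm_integral_le_of_norm_le_const fun t _ => hC _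
      rw [sub_zero, abs_of_nonneg (by positivity : (0 : ℝ) ≤ n)] at h3
      rw [norm_mul, norm_inv, Complex.norm_natCast]
      rcases Nat.eq_zero_or_pos n with h | h
      · subst h
        simp [hC0]
      · have : (0 : ℝ) < n := by exact_mod_cast h
        rw [inv_mul_le_iff₀ this]
        linarith
    · refine ae_restrict_of_ae ?_
      filter_upwards [hlim] with x hx
      have := hx.comp tendsto_natCast_atTop_atTop
      simpa [Function.comp_def] using this
  have h3 : Tendsto (fun n : ℕ => ∫ x in s, ((n : ℂ)⁻¹ * ∫ t in (0 : ℝ)..(n : ℝ), f (φ t x)) ∂μ)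
      atTop (𝓝 (∫ x in s, f x ∂μ)) := by
    refine tendsto_const_nhds.congr' ?_
    filter_upwards [eventually_gt_atTop 0] with n hn
    exact (ZA_setIntegral hmeas hmp hf hC hs.1 hs.2 hn).symm
  exact tendsto_nhds_unique h2 h3

theorem ZA_null {α : Type*} {m : MeasurableSpace α} [mα : MeasurableSpace α]
    [StandardBorelSpace α] {μ : Measure α} [IsFiniteMeasure μ] (hm : m ≤ mα) {s : Set α}
    (hs : μ s = 0) : ∀ᵐ x ∂μ, condExpKernel μ m x s = 0 := by
  have h1 : ∀ᵐ w ∂(condExpKernel μ m ∘ₘ μ.trim hm), w ∉ s := by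
    rw [condExpKernel_comp_trim hm]
    exact measure_eq_zero_iff_ae_notMem.mp hs
  have h2 := Measure.ae_ae_of_ae_comp h1
  filter_upwards [ae_of_ae_trim hm h2] with x hx
  exact measure_eq_zero_iff_ae_notMem.mpr hx

theorem ZA_const {α : Type*} {m : MeasurableSpace α} [mα : MeasurableSpace α]
    [StandardBorelSpace α] {μ : Measure α} [IsFiniteMeasure μ] (hm : m ≤ mα) {g : α → ℂ}
    (hg : Measurable[m] g) : ∀ᵐ x ∂μ, ∀ᵐ w ∂(condExpKernel μ m x), g w = g x := by
  have h1 := compProd_trim_condExpKernel (μ := μ) hm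
  have h2 : ∀ᵐ p ∂((μ.trim hm) ⊗ₘ condExpKernel μ m), g p.2 = g p.1 := by
    rw [h1]
    have h3 : @Measurable α (α × α) mα (m.prod mα) Function.diag :=
      Measurable.prodMk (measurable_id'' hm) measurable_id
    have h4 : @Measurable (α × α) ℂ (m.prod mα) _ (fun p => g p.2) :=
      @Measurable.comp _ _ _ (m.prod mα) mα _ _ _ (hg.mono hm le_rfl) (@measurable_snd _ _ m mα)
    have h5 : @Measurable (α × α) ℂ (m.prod mα) _ (fun p => g p.1) :=
      @Measurable.comp _ _ _ (m.prod mα) m _ _ _ hg (@measurable_fst _ _ m mα)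
    have h6 : @MeasurableSet (α × α) (m.prod mα) {p | g p.2 = g p.1} :=
      measurableSet_eq_fun h4 h5
    exact (@ae_map_iff α (α × α) mα (m.prod mα) μ Function.diag
      (@Measurable.aemeasurable α (α × α) mα (m.prod mα) _ μ h3) _ h6).mpr
      (Eventually.of_forall fun x => rfl)
  exact ae_of_ae_trim hm (Measure.ae_ae_of_ae_compProd h2)

theorem Z_kernel {α : Type*} [MeasurableSpace α] [StandardBorelSpace α]
    (μ : Measure α) [IsFiniteMeasure μ]
    (φ : ℝ → α → α) (h0 : ∀ x, φ 0 x = x) (hadd : ∀ s t x, φ (s + t) x = φ s (φ t x))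
    (hmeas : Measurable (fun p : ℝ × α => φ p.1 p.2)) (hmp : ∀ t, MeasurePreserving (φ t) μ μ) :
    ∃ ν : α → Measure α, (∀ x, IsProbabilityMeasure (ν x)) ∧
      (∀ s : Set α, μ s = 0 → ∀ᵐ x ∂μ, ν x s = 0) ∧
      ∀ (f : α → ℂ) (C : ℝ) (g : α → ℂ), Measurable f → (∀ x, ‖f x‖ ≤ C) → Measurable g →
        (∀ᵐ x ∂μ, Tendsto (fun T : ℝ => (T : ℂ)⁻¹ * ∫ t in (0 : ℝ)..T, f (φ t x)) atTop
          (𝓝 (g x))) →
        (∀ᵐ x ∂μ, ∫ w, f w ∂(ν x) = g x) ∧ ∀ᵐ x ∂μ, ∀ᵐ w ∂(ν x), g w = g x := by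
  refine ⟨fun x => condExpKernel μ (ZA_inv μ φ) x, fun x => inferInstance,
    fun s hs => ZA_null (ZA_inv_le μ φ) hs, ?_⟩
  intro f C g hf hC hg hlim
  obtain ⟨g', hg'm, hg'C, hg'lim, hg'inv⟩ := phase_ergodic μ φ h0 hadd hmeas hmp 0 hf hC
  have hgg' : g =ᵐ[μ] g' := by
    filter_upwards [hlim, hg'lim] with x h1 h2
    refine tendsto_nhds_unique h1 (h2.congr fun T => ?_)
    simp
  have hinv : ∀ t, ∀ᵐ x ∂μ, g (φ t x) = g x := by
    intro t
    have h1 : ∀ᵐ x ∂μ, g (φ t x) = g' (φ t x) :=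
      (hmp t).quasiMeasurePreserving.ae hgg'
    filter_upwards [hgg', h1, hg'inv t] with x h2 h3 h4
    rw [h3, h4, h2]
    simp
  have hgm := ZA_measurable hg hinv
  have hgi : Integrable g μ := Integrable.of_bound hg.aestronglyMeasurable C (by
    filter_upwards [hgg'] with x hx
    rw [hx]
    exact hg'C x)
  have hfi : Integrable f μ := Integrable.of_bound hf.aestronglyMeasurable C
    (Eventually.of_forall hC)
  refine ⟨?_, ZA_const (ZA_inv_le μ φ) hgm⟩
  filter_upwards [ZA_condExp hmeas hmp hf hC hgm hgi hlim,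
    condExp_ae_eq_integral_condExpKernel (ZA_inv_le μ φ) hfi] with x h1 h2
  rw [h1, h2]

end

end Pool.Agent.Lib_helper25.PV
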