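import Pool.Agent.Lib_helper68.PV.ZA
import Pool.Agent.Lib_helper23.PV.ZB
import Pool.Agent.Lib_helper31.PV.B5a
import Pool.Agent.Lib_helper41.PV.AvgExists
import Pool.Agent.Lib_helper31.PV.ZC

/-! Project PV (MP_b08f5f_an), zero-one law: the limit law of the vortices seen from their centre is
either invariant under all turns or singular to its turns (but finitely many). -/

set_option autoImplicit false

namespace Pool.Agent.Lib_helper25.PV

open MeasureTheory Filter Topology Set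
open scoped ComplexConjugate

noncomputable section

/-- the turn of all points by the angle `θ` -/
def Zturn {N : ℕ} (θ : ℝ) (w : Conf N) : Conf N := fun i => Complex.exp (θ * Complex.I) * w i

theorem ZE_turn_smul {N : ℕ} (θ : ℝ) (w : Conf N) :
    Zturn θ w = Complex.exp (θ * Complex.I) • w := rfl

theorem ZE_turn_continuous {N : ℕ} (θ : ℝ) : Continuous (Zturn (N := N) θ) := by
  unfold Zturn
  fun_prop

theorem ZE_seen0 {N : ℕ} (w : Conf N) : seen 0 w = fun i => w i - centre w := by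
  funext i
  simp [seen]

theorem ZE_seen {N : ℕ} (θ : ℝ) (w : Conf N) : seen θ w = Zturn θ (seen 0 w) := by
  rw [ZE_seen0]
  rfl

theorem ZE_seen0_continuous {N : ℕ} : Continuous (seen (N := N) 0) := by
  have : seen (N := N) 0 = fun (w : Conf N) (i : Fin N) => w i - (∑ i, w i) / N := by
    funext w
    rw [ZE_seen0]
    rfl
  rw [this]
  fun_prop

theorem ZE_seen0_turn {N : ℕ} (θ : ℝ) (w : Conf N) : seen 0 (Zturn θ w) = Zturn θ (seen 0 w) := by
  rw [ZE_seen0, ZE_seen0]
  funext i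
  simp only [Zturn, centre, ← Finset.mul_sum]
  ring

theorem ZE_seen0_add {N : ℕ} (w : Conf N) (c : ℂ) : seen 0 (fun i => w i + c) = seen 0 w := by
  rw [ZE_seen0, ZE_seen0]
  funext i
  have hN : (N : ℂ) ≠ 0 := by
    have : 0 < N := Fin.pos i
    exact_mod_cast this.ne'
  simp only [centre, Finset.sum_add_distrib, Finset.sum_const, Finset.card_univ, Fintype.card_fin,
    nsmul_eq_mul]
  field_simp
  ring

theorem ZE_mono_turn {N : ℕ} (a b : Fin N → ℕ) (θ : ℝ) (w : Conf N) :
    mono a b (Zturn θ w) =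
      Complex.exp (((((∑ i, a i : ℕ) : ℤ) - ((∑ i, b i : ℕ) : ℤ) : ℤ) * θ : ℝ) * Complex.I) *
        mono a b w := by
  rw [B5a_mono_apply, B5a_mono_apply]
  have h1 : ∀ i, Zturn θ w i ^ a i * conj (Zturn θ w i) ^ b i =
      (Complex.exp (θ * Complex.I) ^ a i * Complex.exp (-(θ * Complex.I)) ^ b i) *
        (w i ^ a i * conj (w i) ^ b i) := by
    intro i
    have h2 : conj (Complex.exp (θ * Complex.I)) = Complex.exp (-(θ * Complex.I)) := by
      rw [← Complex.exp_conj, map_mul, Complex.conj_ofReal, Complex.conj_I, mul_neg]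
    rw [Zturn, map_mul, h2, mul_pow, mul_pow]
    ring
  rw [Finset.prod_congr rfl fun i _ => h1 i, Finset.prod_mul_distrib]
  congr 1
  rw [Finset.prod_mul_distrib, Finset.prod_pow_eq_pow_sum, Finset.prod_pow_eq_pow_sum,
    ← Complex.exp_nat_mul, ← Complex.exp_nat_mul, ← Complex.exp_add]
  congr 1
  push_cast
  ring

/-- the monomials seen from the centre -/
def ZE_f {N : ℕ} (a b : Fin N → ℕ) (w : Conf N) : ℂ := mono a b (seen 0 w)

theorem ZE_f_continuous {N : ℕ} (a b : Fin N → ℕ) : Continuous (ZE_f a b) :=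
  (mono a b).continuous.comp ZE_seen0_continuous

theorem ZE_f_bdd {N : ℕ} (a b : Fin N → ℕ) (R : ℝ) : ∃ C, ∀ z : Conf N, inertia z ≤ R →
    ‖ZE_f a b z‖ ≤ C := by
  obtain ⟨C, hC⟩ := (isCompact_closedBall (0 : Conf N) (Real.sqrt R)).exists_bound_of_continuousOn
    (ZE_f_continuous a b).continuousOn
  refine ⟨C, fun z hz => hC z ?_⟩
  rw [mem_closedBall_zero_iff]
  refine (pi_norm_le_iff_of_nonneg (Real.sqrt_nonneg _)).2 fun i => ?_
  refine Real.le_sqrt_of_sq_le ?_
  refine le_trans ?_ hz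
  exact Finset.single_le_sum (f := fun k => ‖z k‖ ^ 2) (fun i _ => sq_nonneg _) (Finset.mem_univ i)

/-- the canonical time averages of the monomials seen from the centre -/
theorem ZE_L {N : ℕ} (V : VFlow N) (a b : Fin N → ℕ) : ∃ L : Conf N → ℂ, Measurable L ∧
    (∀ θ z, L (Zturn θ z) =
      Complex.exp (((((∑ i, a i : ℕ) : ℤ) - ((∑ i, b i : ℕ) : ℤ) : ℤ) * θ : ℝ) * Complex.I) *
        L z) ∧
    (∀ z, L (seen 0 z) = L z) ∧
    ∀ᵐ z, Tendsto (fun T : ℝ => (T : ℂ)⁻¹ * ∫ t in (0 : ℝ)..T, ZE_f a b (V.φ t z)) atTop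
      (𝓝 (L z)) := by
  set F : ℕ → Conf N → ℂ := fun n z => (n : ℂ)⁻¹ * ∫ t in (0 : ℝ)..(n : ℝ), ZE_f a b (V.φ t z)
    with hF
  have hFm : ∀ n, Measurable (F n) := by
    intro n
    have hn0 : (0 : ℝ) ≤ n := by positivity
    simp only [hF, intervalIntegral.integral_of_le hn0]
    have h2 : StronglyMeasurable
        (Function.uncurry fun (x : Conf N) (t : ℝ) => ZE_f a b (V.φ t x)) :=
      ((ZE_f_continuous a b).measurable.comp (V.meas.comp measurable_swap)).stronglyMeasurable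
    exact (h2.integral_prod_right (ν := volume.restrict (Ioc (0 : ℝ) n))).measurable.const_mul _
  obtain ⟨L, hLm, hL1, hL2⟩ := Z_canon F hFm
  have key : ∀ (e : ℂ), e ≠ 0 → ∀ y z, (∀ n, F n y = e * F n z) → L y = e * L z := by
    intro e he y z h
    by_cases hz : ∃ l, Tendsto (fun n => F n z) atTop (𝓝 l)
    · obtain ⟨l, hl⟩ := hz
      rw [hL1 z l hl]
      refine hL1 y _ ?_
      simp only [h]
      exact hl.const_mul e
    · rw [hL2 z hz, mul_zero]
      refine hL2 y fun ⟨l, hl⟩ => hz ⟨e⁻¹ * l, ?_⟩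
      have h1 := hl.const_mul e⁻¹
      refine h1.congr fun n => ?_
      rw [h n, ← mul_assoc, inv_mul_cancel₀ he, one_mul]
  refine ⟨L, hLm, fun θ z => ?_, fun z => ?_, ?_⟩
  · refine key _ (Complex.exp_ne_zero _) _ _ fun n => ?_
    have h1 : ∀ t, ZE_f a b (V.φ t (Zturn θ z)) =
        Complex.exp (((((∑ i, a i : ℕ) : ℤ) - ((∑ i, b i : ℕ) : ℤ) : ℤ) * θ : ℝ) * Complex.I) *
          ZE_f a b (V.φ t z) := by
      intro t
      rw [ZE_turn_smul, V.rot _ (Complex.norm_exp_ofReal_mul_I θ), ← ZE_turn_smul, ZE_f,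
        ZE_seen0_turn, ZE_mono_turn]
      rfl
    simp only [hF, h1, intervalIntegral.integral_const_mul]
    ring
  · have h0 := key 1 one_ne_zero (seen 0 z) z fun n => by
      have h1 : ∀ t, ZE_f a b (V.φ t (seen 0 z)) = ZE_f a b (V.φ t z) := by
        intro t
        have h2 : seen 0 z = fun i => z i + (-centre z) := by
          rw [ZE_seen0]
          funext i
          ring
        rw [h2, V.trans, ZE_f, ZE_seen0_add]
        rfl
      simp only [hF, h1, one_mul]
    rw [one_mul] at h0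
    exact h0
  · obtain ⟨g, -, -, hg, -⟩ := V.avg_exists 0 (ZE_f_continuous a b).measurable (ZE_f_bdd a b)
    filter_upwards [hg] with z hz
    have h1 : Tendsto (fun T : ℝ => (T : ℂ)⁻¹ * ∫ t in (0 : ℝ)..T, ZE_f a b (V.φ t z)) atTop
        (𝓝 (g z)) := by
      refine hz.congr fun T => ?_
      unfold avg
      simp
    have h2 : L z = g z := by
      refine hL1 z _ ?_
      have := h1.comp tendsto_natCast_atTop_atTop
      simpa [Function.comp_def, hF] using this
    rw [h2]
    exact h1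

theorem ZE_norm {N : ℕ} {z : Conf N} {R : ℝ} (h : inertia z ≤ R) (i : Fin N) :
    ‖seen 0 z i‖ ≤ 2 * Real.sqrt R := by
  have h1 : ∀ k, ‖z k‖ ≤ Real.sqrt R := fun k => by
    refine Real.le_sqrt_of_sq_le (le_trans ?_ h)
    exact Finset.single_le_sum (f := fun k => ‖z k‖ ^ 2) (fun i _ => sq_nonneg _)
      (Finset.mem_univ k)
  have hN : (0 : ℝ) < N := by exact_mod_cast Fin.pos i
  have h2 : ‖centre z‖ ≤ Real.sqrt R := by
    unfold centre
    rw [norm_div, Complex.norm_natCast, div_le_iff₀ hN]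
    calc ‖∑ k, z k‖ ≤ ∑ k, ‖z k‖ := norm_sum_le _ _
      _ ≤ ∑ _k : Fin N, Real.sqrt R := Finset.sum_le_sum fun k _ => h1 k
      _ = Real.sqrt R * N := by
        rw [Finset.sum_const, Finset.card_univ, Fintype.card_fin, nsmul_eq_mul, mul_comm]
  rw [ZE_seen0]
  calc ‖z i - centre z‖ ≤ ‖z i‖ + ‖centre z‖ := norm_sub_le _ _
    _ ≤ 2 * Real.sqrt R := by linarith [h1 i]

/-- the assertion of the zero-one law at `z` -/
def ZE_law {N : ℕ} (V : VFlow N) (z : Conf N) : Prop :=
  ∃ ν : Measure (Conf N),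
    IsProbabilityMeasure ν ∧
    (∀ Ψ : Conf N → ℝ, Continuous Ψ → ∀ θ : ℝ, Tendsto (fun T : ℝ => T⁻¹ *
      ∫ t in (0 : ℝ)..T, Ψ (seen θ (V.φ t z))) atTop (𝓝 (∫ w, Ψ w ∂(ν.map (Zturn θ))))) ∧
    ((∀ θ : ℝ, ν.map (Zturn θ) = ν) ∨ ∃ m : ℕ, 0 < m ∧ ∀ θ : ℝ,
      ((∃ n : ℤ, θ = 2 * Real.pi * n / m) → ν.map (Zturn θ) = ν) ∧
      ((¬ ∃ n : ℤ, θ = 2 * Real.pi * n / m) → ν.map (Zturn θ) ⟂ₘ ν))

theorem ZE_of {N : ℕ} (V : VFlow N) {z : Conf N} {R : ℝ} (hz : inertia z ≤ R)
    (L : (Fin N → ℕ) → (Fin N → ℕ) → Conf N → ℂ) (hLm : ∀ a b, Measurable (L a b))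
    (hturn : ∀ a b θ w, L a b (Zturn θ w) =
      Complex.exp (((((∑ i, a i : ℕ) : ℤ) - ((∑ i, b i : ℕ) : ℤ) : ℤ) * θ : ℝ) * Complex.I) *
        L a b w)
    (hseen : ∀ a b w, L a b (seen 0 w) = L a b w)
    (hlim : ∀ a b, Tendsto (fun T : ℝ => (T : ℂ)⁻¹ * ∫ t in (0 : ℝ)..T, ZE_f a b (V.φ t z)) atTop
      (𝓝 (L a b z)))
    {κ : Measure (Conf N)} [IsProbabilityMeasure κ] (hκR : ∀ᵐ w ∂κ, inertia w ≤ R)
    (hint : ∀ a b, ∫ w, ZE_f a b w ∂κ = L a b z)
    (hconst : ∀ a b, ∀ᵐ w ∂κ, L a b w = L a b z) : ZE_law V z := by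
  have hs : Measurable (seen (N := N) 0) := ZE_seen0_continuous.measurable
  set ν : Measure (Conf N) := κ.map (seen 0) with hν
  have : IsProbabilityMeasure ν := Measure.isProbabilityMeasure_map hs.aemeasurable
  have hballm : MeasurableSet {w : Conf N | ∀ i, ‖w i‖ ≤ 2 * Real.sqrt R} := by
    have : {w : Conf N | ∀ i, ‖w i‖ ≤ 2 * Real.sqrt R} =
        ⋂ i, {w : Conf N | ‖w i‖ ≤ 2 * Real.sqrt R} := by
      ext w
      simp
    rw [this]
    exact MeasurableSet.iInter fun i =>
      measurableSet_le (measurable_norm.comp (measurable_pi_apply i)) measurable_const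
  have hνR : ∀ᵐ w ∂ν, ∀ i, ‖w i‖ ≤ 2 * Real.sqrt R := by
    rw [hν, ae_map_iff hs.aemeasurable hballm]
    filter_upwards [hκR] with w hw i using ZE_norm hw i
  have hνint : ∀ a b, ∫ w, mono a b w ∂ν = L a b z := by
    intro a b
    rw [hν, integral_map hs.aemeasurable (mono a b).continuous.aestronglyMeasurable]
    exact hint a b
  have hνconst : ∀ a b, ∀ᵐ w ∂ν, L a b w = L a b z := by
    intro a b
    rw [hν, ae_map_iff hs.aemeasurable (measurableSet_eq_fun (hLm a b) measurable_const)]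
    filter_upwards [hconst a b] with w hw
    rw [hseen, hw]
  have htm : ∀ θ, Measurable (Zturn (N := N) θ) := fun θ => (ZE_turn_continuous θ).measurable
  have hprob : ∀ θ, IsProbabilityMeasure (ν.map (Zturn θ)) := fun θ =>
    Measure.isProbabilityMeasure_map (htm θ).aemeasurable
  -- invariance when all weights that occur are killed by the turn
  have hinv : ∀ θ : ℝ, (∀ a b, L a b z ≠ 0 →
      Complex.exp (((((∑ i, a i : ℕ) : ℤ) - ((∑ i, b i : ℕ) : ℤ) : ℤ) * θ : ℝ) * Complex.I) =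
        1) → ν.map (Zturn θ) = ν := by
    intro θ hθ
    have := hprob θ
    refine Z_ext (R := 2 * Real.sqrt R) ?_ hνR fun a b => ?_
    · rw [ae_map_iff (htm θ).aemeasurable hballm]
      filter_upwards [hνR] with w hw i
      rw [Zturn, norm_mul, Complex.norm_exp_ofReal_mul_I, one_mul]
      exact hw i
    · rw [integral_map (htm θ).aemeasurable (mono a b).continuous.aestronglyMeasurable]
      simp only [ZE_mono_turn]
      rw [integral_const_mul, hνint]
      by_cases h : L a b z = 0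
      · rw [h, mul_zero]
      · rw [hθ a b h, one_mul]
  refine ⟨ν, inferInstance, fun Ψ hΨ θ => ?_, ?_⟩
  · rw [integral_map (htm θ).aemeasurable hΨ.aestronglyMeasurable]
    simp only [ZE_seen θ]
    have hx : Continuous fun t => seen 0 (V.φ t z) := ZE_seen0_continuous.comp (V.cont z)
    exact Z_tendsto hx (R := 2 * Real.sqrt R)
      (fun t i => ZE_norm (by rw [V.inert]; exact hz) i) hνR
      (fun a b => by
        rw [hνint]
        exact hlim a b) (hΨ.comp (ZE_turn_continuous θ))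
  · set S : Set ℤ := {k | ∃ a b, L a b z ≠ 0 ∧ k = ((∑ i, a i : ℕ) : ℤ) - ((∑ i, b i : ℕ) : ℤ)}
      with hS
    rcases Z_gcd S with h0 | ⟨m, hm, hmS⟩
    · left
      intro θ
      refine hinv θ fun a b hab => ?_
      rw [h0 _ ⟨a, b, hab, rfl⟩]
      simp
    · right
      refine ⟨m, hm, fun θ => ⟨fun hθ => ?_, fun hθ => ?_⟩⟩
      · have h1 := (hmS θ).mpr hθ
        exact hinv θ fun a b hab => h1 _ ⟨a, b, hab, rfl⟩
      · have h1 : ¬ ∀ k ∈ S, Complex.exp ((k * θ : ℝ) * Complex.I) = 1 := fun h =>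
          hθ ((hmS θ).mp h)
        push Not at h1
        obtain ⟨k, ⟨a, b, hab, rfl⟩, hk⟩ := h1
        refine ⟨{w | L a b w = L a b z}, measurableSet_eq_fun (hLm a b) measurable_const, ?_, ?_⟩
        · rw [Measure.map_apply (htm θ)
            (measurableSet_eq_fun (hLm a b) measurable_const)]
          rw [measure_eq_zero_iff_ae_notMem]
          filter_upwards [hνconst a b] with w hw hmem
          have h2 : L a b (Zturn θ w) = L a b z := hmem
          rw [hturn, hw] at h2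
          exact hk (mul_right_cancel₀ hab (by rw [h2, one_mul]))
        · rw [measure_eq_zero_iff_ae_notMem]
          filter_upwards [hνconst a b] with w hw hmem
          exact hmem hw

theorem VFlow.zero_one' {N : ℕ} (V : VFlow N) : ∀ᵐ z : Conf N, ZE_law V z := by
  choose L hLm hturn hseen hlim using fun a b => ZE_L V a b
  have hlim' : ∀ᵐ z, ∀ a b, Tendsto (fun T : ℝ => (T : ℂ)⁻¹ * ∫ t in (0 : ℝ)..T,
      ZE_f a b (V.φ t z)) atTop (𝓝 (L a b z)) := by
    rw [ae_all_iff]
    intro a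
    rw [ae_all_iff]
    exact hlim a
  have key : ∀ n : ℕ, ∀ᵐ z : Conf N, inertia z ≤ n → ZE_law V z := by
    intro n
    set B : Set (Conf N) := B3c_ball N n with hB
    have hBm : MeasurableSet B := B3c_meas N n
    have : IsFiniteMeasure (volume.restrict B) :=
      ⟨by rw [Measure.restrict_apply_univ]; exact B3c_fin N n⟩
    have hpre : ∀ t, V.φ t ⁻¹' B = B := by
      intro t
      ext z
      show inertia (V.φ t z) ≤ n ↔ inertia z ≤ n
      rw [V.inert]
    have hmp : ∀ t, MeasurePreserving (V.φ t) (volume.restrict B) (volume.restrict B) := by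
      intro t
      have h1 := (V.mp t).restrict_preimage hBm
      rw [hpre t] at h1
      exact h1
    obtain ⟨κ, hκ1, hκ2, hκ3⟩ := Z_kernel (volume.restrict B) V.φ V.zero V.add V.meas hmp
    have h1 : ∀ᵐ z ∂(volume.restrict B), ∀ᵐ w ∂(κ z), inertia w ≤ n := by
      have h2 := hκ2 Bᶜ (by rw [Measure.restrict_apply hBm.compl, compl_inter_self,
        measure_empty])
      filter_upwards [h2] with z hz
      have h3 := measure_eq_zero_iff_ae_notMem.mp hz
      filter_upwards [h3] with w hw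
      by_contra h4
      exact hw h4
    have h2 : ∀ a b, (∀ᵐ z ∂(volume.restrict B), ∫ w, ZE_f a b w ∂(κ z) = L a b z) ∧
        ∀ᵐ z ∂(volume.restrict B), ∀ᵐ w ∂(κ z), L a b w = L a b z := by
      intro a b
      obtain ⟨C, hC⟩ := ZE_f_bdd a b n
      have hC0 : ∀ z, ‖B.indicator (ZE_f a b) z‖ ≤ max C 0 := by
        intro z
        by_cases hz : z ∈ B
        · rw [indicator_of_mem hz]
          exact (hC z hz).trans (le_max_left _ _)
        · rw [indicator_of_notMem hz, norm_zero]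
          exact le_max_right _ _
      have h3 := hκ3 (B.indicator (ZE_f a b)) (max C 0) (L a b)
        ((ZE_f_continuous a b).measurable.indicator hBm) hC0 (hLm a b) (by
          filter_upwards [ae_restrict_of_ae (hlim a b), ae_restrict_mem hBm] with z hz hzB
          refine hz.congr fun T => ?_
          congr 1
          refine intervalIntegral.integral_congr fun t _ => ?_
          have h4 : V.φ t z ∈ B := by
            have : z ∈ V.φ t ⁻¹' B := by
              rw [hpre t]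
              exact hzB
            exact this
          exact (indicator_of_mem h4 _).symm)
      refine ⟨?_, h3.2⟩
      filter_upwards [h3.1, h1] with z hz hzB
      rw [← hz]
      refine integral_congr_ae ?_
      filter_upwards [hzB] with w hw
      exact (indicator_of_mem (show w ∈ B from hw) _).symm
    have h3 : ∀ᵐ z ∂(volume.restrict B), ∀ a b, ∫ w, ZE_f a b w ∂(κ z) = L a b z := by
      rw [ae_all_iff]
      intro a
      rw [ae_all_iff]
      exact fun b => (h2 a b).1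
    have h4 : ∀ᵐ z ∂(volume.restrict B), ∀ a b, ∀ᵐ w ∂(κ z), L a b w = L a b z := by
      rw [ae_all_iff]
      intro a
      rw [ae_all_iff]
      exact fun b => (h2 a b).2
    have h5 : ∀ᵐ z ∂(volume.restrict B), ZE_law V z := by
      filter_upwards [ae_restrict_of_ae hlim', ae_restrict_mem hBm, h1, h3, h4]
        with z hz1 hz2 hz3 hz4 hz5
      have := hκ1 z
      exact ZE_of V (R := n) hz2 L hLm hturn hseen hz1 hz3 hz4 hz5
    rw [ae_restrict_iff' hBm] at h5
    exact h5
  rw [← ae_all_iff] at key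
  filter_upwards [key] with z hz
  obtain ⟨n, hn⟩ := exists_nat_ge (inertia z)
  exact hz n hn

theorem VFlow.zero_one {N : ℕ} (V : VFlow N) : ∀ᵐ z : Conf N, ∃ ν : Measure (Conf N),
    IsProbabilityMeasure ν ∧
    (∀ Ψ : Conf N → ℝ, Continuous Ψ → ∀ θ : ℝ, Tendsto (fun T : ℝ => T⁻¹ *
      ∫ t in (0 : ℝ)..T, Ψ (seen θ (V.φ t z))) atTop (𝓝 (∫ w, Ψ w ∂(ν.map (Zturn θ))))) ∧
    ((∀ θ : ℝ, ν.map (Zturn θ) = ν) ∨ ∃ m : ℕ, 0 < m ∧ ∀ θ : ℝ,
      ((∃ n : ℤ, θ = 2 * Real.pi * n / m) → ν.map (Zturn θ) = ν) ∧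
      ((¬ ∃ n : ℤ, θ = 2 * Real.pi * n / m) → ν.map (Zturn θ) ⟂ₘ ν)) :=
  V.zero_one'

end

end Pool.Agent.Lib_helper25.PV
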